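import Pool.Agent.J4.H77.WL.Three

/-!
# The Weisfeiler-Leman dimension of circular convex bipartite graphs is at most three

A bipartite graph with sides `A`, `B` is circular convex if the vertices of `B` can be arranged on a
circle such that the neighbourhoods of the vertices of `A` are arcs; equivalently, `B` has a linear
order in which each of these neighbourhoods, or its complement in `B`, is an interval (the matrix
of the graph has the circular ones property). There is no condition on the neighbourhoods of the
vertices of `B`. We show that the three-dimensional Weisfeiler-Leman method distinguishes every
finite circular convex bipartite graph from every other finite graph. For convex bipartite graphs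
(linear order, intervals) the two-dimensional method is enough (`Pool.Agent.J4.H77.WL.main2`; this
is also a special case of `PlanarDominanceWLDimension`, where the class is larger).

Sketch of the proof. The first vertex `b` of `B` is individualised, and the neighbourhoods which
contain `b` are replaced by their complements. In the component of `b` the new graph is convex, the
other components are convex before. For a convex bipartite graph the extent of a vertex of `A` is its
neighbourhood and the extent of a vertex `b` of `B` is `{b}`. The type of a pair of vertices says
which of the extents contains the other one and whether they meet; it is invariant under the
two-dimensional method. A module is a set `M` of vertices such that every vertex outside has the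
same type with all vertices of `M`. If the graph is connected and no vertex of `A` is adjacent to all
of `B`, then there is no division of the vertices into two parts with a constant type between them,
and then `to lie in a common proper module` is an equivalence relation which is invariant under the
two-dimensional method, for all bipartite graphs. For a convex graph the row of the first vertex `v`
of `B` separates the classes: one starts with the partition `{v}`, `B ∖ {v}`, `A`, and refines the
classes in `A` by the numbers of neighbours in the classes in `B`, and the classes in `B` by the
neighbourhoods of those vertices of `A` which have neighbours in another class, too. By induction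
the classes in `B` are intervals. In the end the vertices in a class in `A` have the same
neighbourhoods, or all their neighbours are in one class `X` in `B`, and the vertices whose extent
is contained in `X` form a module. So the row of `v` gives an isomorphism of the quotients, and
induction applies to the classes; connected components and vertices adjacent to all of `B` are
treated separately.
-/

set_option autoImplicit false

namespace Pool.Agent.Results.MP_128e7d_lc.CircularConvexWLDimension

open Pool.Agent.W185.SRG

/-- `G` is a circular convex bipartite graph: it has a bipartition with sides `A`, `Aᶜ`, and `Aᶜ` has
a linear order such that, for every vertex `a` of `A`, the set of the neighbours of `a` is an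
interval of `Aᶜ`, or the set of the other elements of `Aᶜ` is an interval of `Aᶜ`. -/
def CircularConvexBipartite {V : Type} (G : SimpleGraph V) : Prop :=
  ∃ (A : Set V) (L : LinearOrder V), (∀ x y, G.Adj x y → (x ∈ A ↔ y ∉ A)) ∧
    ∀ a ∈ A,
      (∀ b d e, b ∉ A → d ∉ A → e ∉ A → L.lt b e → L.lt e d →
        G.Adj a b → G.Adj a d → G.Adj a e) ∨
      (∀ b d e, b ∉ A → d ∉ A → e ∉ A → L.lt b e → L.lt e d →
        ¬ G.Adj a b → ¬ G.Adj a d → ¬ G.Adj a e)

/-- **Circular convex bipartite graphs have Weisfeiler-Leman dimension at most three.** For every
`k ≥ 3`, the `k`-dimensional Weisfeiler-Leman method decides isomorphism of a finite circular convex
bipartite graph with an arbitrary finite graph. -/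
theorem result (k : ℕ) (hk : 3 ≤ k) (V W : Type) [Fintype V] [Fintype W] (G : SimpleGraph V)
    (H : SimpleGraph W) (hG : CircularConvexBipartite G) :
    WLEquivalent k G H ↔ Nonempty (G ≃g H) := by
  obtain ⟨A, L, hA, hL⟩ := hG
  refine Pool.Agent.J4.H77.WL.main3 hk A hA ⟨L, fun a ha => ?_⟩
  rcases hL a ha with h | h
  · exact Or.inl fun b d e he h1 h2 h3 h4 =>
      h b d e ((hA a b h1).1 ha) ((hA a d h2).1 ha) he h3 h4 h1 h2
  · exact Or.inr fun b d e hb hd he h1 h2 h3 h4 => h b d e hb hd he h3 h4 h1 h2

end Pool.Agent.Results.MP_128e7d_lc.CircularConvexWLDimension
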