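import Pool.Agent.J4.H77.WL.Incid

/-!
# Convex bipartite graphs: the row of the first point separates the maximal modules
-/

set_option autoImplicit false
set_option linter.unusedSectionVars false

namespace Pool.Agent.J4.H77.WL

open Relation Finset Pool.Agent.J4.H79.PG

/-- Two segments of a set with the same number of elements are equal. -/
theorem seg_eq {V : Type} [DecidableEq V] (r : V → V → Prop) (htot : ∀ a b, a ≠ b → r a b ∨ r b a)
    (Z S1 S2 : Finset V) (h1 : ∀ a ∈ S1, ∀ b ∈ Z, r a b → b ∈ S1)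
    (h2 : ∀ a ∈ S2, ∀ b ∈ Z, r a b → b ∈ S2) (hs1 : S1 ⊆ Z) (hs2 : S2 ⊆ Z)
    (hc : S1.card = S2.card) : S1 = S2 := by
  have key : ∀ (S1 S2 : Finset V), (∀ a ∈ S1, ∀ b ∈ Z, r a b → b ∈ S1) →
      (∀ a ∈ S2, ∀ b ∈ Z, r a b → b ∈ S2) → S1 ⊆ Z → S2 ⊆ Z → S1.card = S2.card → S1 ⊆ S2 := by
    intro S1 S2 h1 h2 hs1 hs2 hc d hd
    by_contra hn
    have hsub : S2 ⊆ S1 := by
      intro e he
      have hne : d ≠ e := by
        rintro rfl
        exact hn he
      rcases htot d e hne with h | h
      · exact h1 d hd e (hs2 he) h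
      · exact absurd (h2 e he d (hs1 hd) h) hn
    have := Finset.eq_of_subset_of_card_le hsub hc.le
    rw [this] at hn
    exact hn hd
  exact Finset.Subset.antisymm (key S1 S2 h1 h2 hs1 hs2 hc) (key S2 S1 h2 h1 hs2 hs1 hc.symm)

section
variable {V : Type} [Fintype V] [LinearOrder V] {G : SimpleGraph V} {A : Set V} {K : Type}
  {c : V → V → K} {v : V}

/-- The partitions that are considered. -/
structure Good (A : Set V) (c : V → V → K) (v : V) (E : Setoid V) : Prop where
  alone : ∀ x, E.r v x → x = v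
  side : ∀ x y, E.r x y → (x ∈ A ↔ y ∈ A)
  sep : ∀ x y, x ∉ A → y ∉ A → ¬ E.r x y → (∀ a d, E.r x a → E.r y d → a < d) ∨
    (∀ a d, E.r x a → E.r y d → d < a)
  col : ∀ x y, c v x = c v y → E.r x y

/-- minimality -/
def Minim (A : Set V) (c : V → V → K) (v : V) (E : Setoid V) : Prop :=
  ∀ E' : Setoid V, Good A c v E' → (∀ x y, E'.r x y → E.r x y) → ∀ x y, E.r x y → E'.r x y

open Classical in
/-- the neighbours of `p` in the class of `z` -/
noncomputable def nb (G : SimpleGraph V) (E : Setoid V) (z p : V) : Finset V :=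
  univ.filter fun d => E.r z d ∧ G.Adj p d

theorem mem_nb {E : Setoid V} {z p d : V} : d ∈ nb G E z p ↔ E.r z d ∧ G.Adj p d := by
  classical
  unfold nb
  rw [mem_filter]
  exact ⟨fun h => h.2, fun h => ⟨mem_univ _, h⟩⟩

/-- equal numbers of neighbours -/
theorem Good.card_eq
    (hstep : ∀ x y, c v x = c v y → ∃ β : V ≃ V, ∀ z, c v z = c v (β z) ∧
      (G.Adj z x ↔ G.Adj (β z) y)) {E : Setoid V} (hE : Good A c v E) (hmin : Minim A c v E)
    {x y : V} (z : V) (hx : x ∈ A) (hxy : E.r x y) : (nb G E z x).card = (nb G E z y).card := by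
  classical
  let E' : Setoid V :=
    { r := fun p q => E.r p q ∧ (p ∈ A → (nb G E z p).card = (nb G E z q).card)
      iseqv := by
        refine ⟨fun p => ⟨E.refl p, fun _ => rfl⟩, fun {p q} h => ⟨E.symm h.1, fun h' => ?_⟩,
          fun {p q w} h h' => ⟨E.trans h.1 h'.1, fun h'' => ?_⟩⟩
        · exact (h.2 ((hE.side p q h.1).2 h')).symm
        · exact (h.2 h'').trans (h'.2 ((hE.side p q h.1).1 h'')) }
  have hE' : Good A c v E' := by
    refine ⟨fun p hp => hE.alone p hp.1, fun p q hpq => hE.side p q hpq.1,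
      fun p q hp hq hpq => ?_, fun p q hpq => ⟨hE.col p q hpq, fun _ => ?_⟩⟩
    · have h1 : ¬ E.r p q := fun h => hpq ⟨h, fun h' => absurd h' hp⟩
      rcases hE.sep p q hp hq h1 with h | h
      · exact Or.inl fun a d ha hd => h a d ha.1 hd.1
      · exact Or.inr fun a d ha hd => h a d ha.1 hd.1
    · obtain ⟨β, hβ⟩ := hstep p q hpq
      refine Finset.card_bij (fun d _ => β d) ?_ (fun a _ b _ hab => β.injective hab) ?_
      · intro d hd
        rw [mem_nb] at hd ⊢
        refine ⟨E.trans hd.1 (hE.col _ _ (hβ d).1), ?_⟩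
        exact ((hβ d).2.1 hd.2.symm).symm
      · intro d hd
        rw [mem_nb] at hd
        obtain ⟨w, rfl⟩ := β.surjective d
        refine ⟨w, ?_, rfl⟩
        rw [mem_nb]
        exact ⟨E.trans hd.1 (E.symm (hE.col _ _ (hβ w).1)), ((hβ w).2.2 hd.2.symm).symm⟩
  exact (hmin E' hE' (fun p q h => h.1) x y hxy).2 hx

/-- the neighbourhoods in the class of `z` are segments, if there are neighbours in another class -/
theorem Good.segments
    (hconv : ∀ x ∈ A, ∀ b d e, e ∉ A → G.Adj x b → G.Adj x d → b < e → e < d → G.Adj x e)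
    (hstep : ∀ x y, c v x = c v y → ∃ β : V ≃ V, ∀ z, c v z = c v (β z) ∧
      (G.Adj z x ↔ G.Adj (β z) y)) {E : Setoid V} (hE : Good A c v E) (hmin : Minim A c v E)
    {x z w : V} (hx : x ∈ A) (hz : z ∉ A) (hw : w ∉ A) (hxw : G.Adj x w) (hzw : ¬ E.r z w) :
    ∃ r : V → V → Prop, (∀ a b, a ≠ b → r a b ∨ r b a) ∧
      (∀ p, E.r x p → ∀ a ∈ nb G E z p, ∀ b, E.r z b → r a b → G.Adj p b) ∧
      ((r = fun a b => a < b) ∨ (r = fun a b => b < a)) := by
  classical
  have hpw : ∀ p, E.r x p → ∃ w', E.r w w' ∧ G.Adj p w' := by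
    intro p hp
    have h1 := hE.card_eq hstep hmin w hx hp
    have h2 : 0 < (nb G E w x).card := Finset.card_pos.2 ⟨w, by rw [mem_nb]; exact ⟨E.refl w, hxw⟩⟩
    rw [h1] at h2
    obtain ⟨w', hw'⟩ := Finset.card_pos.1 h2
    rw [mem_nb] at hw'
    exact ⟨w', hw'.1, hw'.2⟩
  rcases hE.sep z w hz hw hzw with h | h
  · refine ⟨fun a b => a < b, fun a b hab => lt_or_gt_of_ne hab, ?_, Or.inl rfl⟩
    intro p hp a ha b hb hab
    rw [mem_nb] at ha
    obtain ⟨w', hw1, hw2⟩ := hpw p hp
    have hb' : b ∉ A := fun h' => hz ((hE.side z b hb).2 h')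
    exact hconv p ((hE.side x p hp).1 hx) a w' b hb' ha.2 hw2 hab (h b w' hb hw1)
  · refine ⟨fun a b => b < a, fun a b hab => (lt_or_gt_of_ne hab).symm, ?_, Or.inr rfl⟩
    intro p hp a ha b hb hab
    rw [mem_nb] at ha
    obtain ⟨w', hw1, hw2⟩ := hpw p hp
    have hb' : b ∉ A := fun h' => hz ((hE.side z b hb).2 h')
    exact hconv p ((hE.side x p hp).1 hx) w' a b hb' hw2 ha.2 (h b w' hb hw1) hab

/-- equal neighbourhoods in a class, if there are neighbours in another one -/
theorem Good.nb_eq
    (hconv : ∀ x ∈ A, ∀ b d e, e ∉ A → G.Adj x b → G.Adj x d → b < e → e < d → G.Adj x e)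
    (hstep : ∀ x y, c v x = c v y → ∃ β : V ≃ V, ∀ z, c v z = c v (β z) ∧
      (G.Adj z x ↔ G.Adj (β z) y)) {E : Setoid V} (hE : Good A c v E) (hmin : Minim A c v E)
    {x y z w : V} (hx : x ∈ A) (hxy : E.r x y) (hz : z ∉ A) (hw : w ∉ A) (hxw : G.Adj x w)
    (hzw : ¬ E.r z w) : nb G E z x = nb G E z y := by
  classical
  obtain ⟨r, htot, hr, -⟩ := hE.segments hconv hstep hmin hx hz hw hxw hzw
  refine seg_eq r htot (univ.filter fun d => E.r z d) _ _ ?_ ?_ ?_ ?_
    (hE.card_eq hstep hmin z hx hxy)
  · intro a ha b hb hab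
    rw [mem_filter] at hb
    rw [mem_nb]
    exact ⟨hb.2, hr x (E.refl x) a ha b hb.2 hab⟩
  · intro a ha b hb hab
    rw [mem_filter] at hb
    rw [mem_nb]
    exact ⟨hb.2, hr y hxy a ha b hb.2 hab⟩
  · intro a ha
    rw [mem_nb] at ha
    rw [mem_filter]
    exact ⟨mem_univ _, ha.1⟩
  · intro a ha
    rw [mem_nb] at ha
    rw [mem_filter]
    exact ⟨mem_univ _, ha.1⟩

/-- a vertex with neighbours in another class is adjacent to all or none of a class -/
theorem Good.homog
    (hconv : ∀ x ∈ A, ∀ b d e, e ∉ A → G.Adj x b → G.Adj x d → b < e → e < d → G.Adj x e)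
    (hstep : ∀ x y, c v x = c v y → ∃ β : V ≃ V, ∀ z, c v z = c v (β z) ∧
      (G.Adj z x ↔ G.Adj (β z) y)) {E : Setoid V} (hE : Good A c v E) (hmin : Minim A c v E)
    {x z w d : V} (hx : x ∈ A) (hz : z ∉ A) (hw : w ∉ A) (hxw : G.Adj x w)
    (hzw : ¬ E.r z w) (hzd : E.r z d) : G.Adj x z ↔ G.Adj x d := by
  classical
  let E' : Setoid V :=
    { r := fun p q => E.r p q ∧ (E.r z p → (G.Adj x p ↔ G.Adj x q))
      iseqv := by
        refine ⟨fun p => ⟨E.refl p, fun _ => Iff.rfl⟩, fun {p q} h => ⟨E.symm h.1, fun h' => ?_⟩,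
          fun {p q w} h h' => ⟨E.trans h.1 h'.1, fun h'' => ?_⟩⟩
        · exact (h.2 (E.trans h' (E.symm h.1))).symm
        · exact (h.2 h'').trans (h'.2 (E.trans h'' h.1)) }
  have hE' : Good A c v E' := by
    refine ⟨fun p hp => hE.alone p hp.1, fun p q hpq => hE.side p q hpq.1,
      fun p q hp hq hpq => ?_, fun p q hpq => ⟨hE.col p q hpq, fun hzp => ?_⟩⟩
    · by_cases h1 : E.r p q
      · have h2 : E.r z p ∧ ¬ (G.Adj x p ↔ G.Adj x q) := by
          by_contra h2
          rw [not_and, not_not] at h2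
          exact hpq ⟨h1, h2⟩
        obtain ⟨r, htot, hr, hr'⟩ := hE.segments hconv hstep hmin hx hz hw hxw hzw
        -- points of the class of `z` that are adjacent to `x` come after the other ones
        have key : ∀ a b, E.r z a → E.r z b → G.Adj x a → ¬ G.Adj x b → r b a := by
          intro a b ha hb hxa hxb
          have hne : a ≠ b := by
            rintro rfl
            exact hxb hxa
          rcases htot a b hne with h | h
          · exact absurd (hr x (E.refl x) a (by rw [mem_nb]; exact ⟨ha, hxa⟩) b hb h) hxb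
          · exact h
        have hzq : E.r z q := E.trans h2.1 h1
        by_cases hxp : G.Adj x p
        · have hxq : ¬ G.Adj x q := fun h => h2.2 ⟨fun _ => h, fun _ => hxp⟩
          have k2 : ∀ a d, E'.r p a → E'.r q d → r d a := by
            intro a d ha hd
            exact key a d (E.trans h2.1 ha.1) (E.trans hzq hd.1) ((ha.2 h2.1).1 hxp)
              fun h => hxq ((hd.2 hzq).2 h)
          rcases hr' with rfl | rfl
          · exact Or.inr k2
          · exact Or.inl k2
        · have hxq : G.Adj x q := by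
            by_contra h
            exact h2.2 ⟨fun h' => absurd h' hxp, fun h' => absurd h' h⟩
          have k2 : ∀ a d, E'.r p a → E'.r q d → r a d := by
            intro a d ha hd
            exact key d a (E.trans hzq hd.1) (E.trans h2.1 ha.1) ((hd.2 hzq).1 hxq)
              fun h => hxp ((ha.2 h2.1).2 h)
          rcases hr' with rfl | rfl
          · exact Or.inl k2
          · exact Or.inr k2
      · rcases hE.sep p q hp hq h1 with h | h
        · exact Or.inl fun a d ha hd => h a d ha.1 hd.1
        · exact Or.inr fun a d ha hd => h a d ha.1 hd.1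
    · obtain ⟨β, hβ⟩ := hstep p q hpq
      have h1 : E.r x (β x) := hE.col _ _ (hβ x).1
      have h2 := hE.nb_eq hconv hstep hmin hx h1 hz hw hxw hzw
      rw [(hβ x).2]
      have hzq : E.r z q := E.trans hzp (hE.col p q hpq)
      constructor
      · intro h3
        have h4 : q ∈ nb G E z (β x) := by rw [mem_nb]; exact ⟨hzq, h3⟩
        rw [← h2, mem_nb] at h4
        exact h4.2
      · intro h3
        have h4 : q ∈ nb G E z x := by rw [mem_nb]; exact ⟨hzq, h3⟩
        rw [h2, mem_nb] at h4
        exact h4.2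
  exact (hmin E' hE' (fun p q h => h.1) z d hzd).2 (E.refl z)

/-- **Row separation.** -/
theorem row_sep [Nontrivial V] (hbip : ∀ x y, G.Adj x y → (x ∈ A ↔ y ∉ A))
    (hconv : ∀ x ∈ A, ∀ b d e, e ∉ A → G.Adj x b → G.Adj x d → b < e → e < d → G.Adj x e)
    (hiso : ∀ x, ∃ y, G.Adj x y) (hv : v ∉ A) (hvmin : ∀ b, b ∉ A → v ≤ b)
    (hside : ∀ x y, c v x = c v y → (x ∈ A ↔ y ∈ A))
    (heq : ∀ x, c v x = c v v → x = v)
    (hstep : ∀ x y, c v x = c v y → ∃ β : V ≃ V, ∀ z, c v z = c v (β z) ∧
      (G.Adj z x ↔ G.Adj (β z) y)) {x y : V} (hxy : c v x = c v y) : Mod (rel G A) x y := by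
  classical
  -- the initial partition
  let E0 : Setoid V :=
    { r := fun p q => (p ∈ A ↔ q ∈ A) ∧ (p = v ↔ q = v)
      iseqv := ⟨fun p => ⟨Iff.rfl, Iff.rfl⟩, fun h => ⟨h.1.symm, h.2.symm⟩,
        fun h h' => ⟨h.1.trans h'.1, h.2.trans h'.2⟩⟩ }
  have hE0 : Good A c v E0 := by
    refine ⟨fun p hp => hp.2.1 rfl, fun p q hpq => hpq.1, fun p q hp hq hpq => ?_,
      fun p q hpq => ⟨hside p q hpq, ?_⟩⟩
    · have hpq' : ¬ (p = v ↔ q = v) := fun h =>
        hpq ⟨⟨fun h' => absurd h' hp, fun h' => absurd h' hq⟩, h⟩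
      have hlt : ∀ b, b ∉ A → b ≠ v → v < b := fun b hb hne => lt_of_le_of_ne (hvmin b hb) hne.symm
      by_cases h : p = v
      · have hqv : q ≠ v := fun h' => hpq' ⟨fun _ => h', fun _ => h⟩
        refine Or.inl fun a d ha hd => ?_
        rw [ha.2.1 h]
        exact hlt d (fun h' => hq (hd.1.2 h')) fun h' => hqv (hd.2.2 h')
      · have hqv : q = v := by
          by_contra h'
          exact hpq' ⟨fun h'' => absurd h'' h, fun h'' => absurd h'' h'⟩
        refine Or.inr fun a d ha hd => ?_
        rw [hd.2.1 hqv]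
        exact hlt a (fun h' => hp (ha.1.2 h')) fun h' => h (ha.2.2 h')
    · constructor
      · rintro rfl
        exact heq q hpq.symm
      · rintro rfl
        exact heq p hpq
  -- a minimal partition
  let μ : Setoid V → ℕ := fun E => ((univ : Finset (V × V)).filter fun p => E.r p.1 p.2).card
  have hex : ∃ n, ∃ E : Setoid V, Good A c v E ∧ μ E = n := ⟨_, E0, hE0, rfl⟩
  obtain ⟨E, hE, hμ⟩ := Nat.find_spec hex
  have hmin : Minim A c v E := by
    intro E' hE' hle a d had
    by_contra hc
    have h1 : μ E' < μ E := by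
      refine Finset.card_lt_card ⟨fun p hp => ?_, fun hs => ?_⟩
      · rw [mem_filter] at hp ⊢
        exact ⟨hp.1, hle _ _ hp.2⟩
      · have h2 : ((a, d) : V × V) ∈ (univ : Finset (V × V)).filter fun p => E.r p.1 p.2 := by
          rw [mem_filter]
          exact ⟨mem_univ _, had⟩
        have h3 := hs h2
        rw [mem_filter] at h3
        exact hc h3.2
    rw [hμ] at h1
    exact Nat.find_min hex h1 ⟨E', hE', rfl⟩
  have hxyE : E.r x y := hE.col x y hxy
  -- every extent is nonempty
  have hne : ∀ m, (ext G A m).Nonempty := by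
    intro m
    by_cases hm : m ∈ A
    · obtain ⟨d, hd⟩ := hiso m
      exact ⟨d, (mem_ext hbip hm).2 hd⟩
    · exact ⟨m, hm, Or.inl rfl⟩
  -- the modules of the classes of points
  have hmodZ : ∀ z, z ∉ A → IsMod (rel G A) {m | ext G A m ⊆ {d | E.r z d}} := by
    intro z hz m hm m' hm' u hu
    obtain ⟨w, hw1, hw2⟩ := Set.not_subset.1 hu
    have hw2' : ¬ E.r z w := hw2
    -- the extent of `u` contains the class or avoids it
    have hcases : (∀ d, E.r z d → d ∈ ext G A u) ∨ (∀ d, E.r z d → d ∉ ext G A u) := by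
      by_cases huA : u ∈ A
      · have hxw : G.Adj u w := (mem_ext hbip huA).1 hw1
        have hom : ∀ d, E.r z d → (G.Adj u z ↔ G.Adj u d) := fun d hd =>
          hE.homog hconv hstep hmin huA hz hw1.1 hxw hw2' hd
        by_cases huz : G.Adj u z
        · exact Or.inl fun d hd => (mem_ext hbip huA).2 ((hom d hd).1 huz)
        · exact Or.inr fun d hd h => huz ((hom d hd).2 ((mem_ext hbip huA).1 h))
      · right
        intro d hd h
        rw [ext_of_notMem hbip huA] at h hw1
        have e1 : d = u := h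
        have e2 : w = u := hw1
        rw [e2, ← e1] at hw2'
        exact hw2' hd
    have key : ∀ m, ext G A m ⊆ {d | E.r z d} → rel G A u m =
        (False, (∀ d, E.r z d → d ∈ ext G A u), (∀ d, E.r z d → d ∈ ext G A u)) := by
      intro m hm
      unfold rel
      obtain ⟨e, he⟩ := hne m
      refine Prod.ext (propext ⟨fun h => hu (h.trans hm), False.elim⟩)
        (Prod.ext (propext ⟨fun h => ?_, fun h d hd => h d (hm hd)⟩) (propext ⟨fun h => ?_,
          fun h => ⟨e, h e (hm he), he⟩⟩))
      · rcases hcases with h1 | h1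
        · exact h1
        · exact absurd (h he) (h1 e (hm he))
      · rcases hcases with h1 | h1
        · exact h1
        · obtain ⟨e, he1, he2⟩ := h
          exact absurd he1 (h1 e (hm he2))
    rw [key m hm, key m' hm']
  -- twins
  have htwin : ∀ p q, p ≠ v → q ≠ v → ext G A p = ext G A q → Mod (rel G A) p q := by
    intro p q hp hq hpq
    refine ⟨{p, q}, ?_, ?_, Or.inl rfl, Or.inr rfl⟩
    · have key : ∀ m ∈ ({p, q} : Set V), ext G A m = ext G A p := by
        rintro m (rfl | hm)
        · rfl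
        · have : m = q := hm
          rw [this, hpq]
      intro m hm m' hm' u _
      unfold rel
      rw [key m hm, key m' hm']
    · intro h
      have h1 : v ∈ ({p, q} : Set V) := by rw [h]; trivial
      rcases h1 with h1 | h1
      · exact hp h1.symm
      · exact hq h1.symm
  by_cases hxv : x = v
  · subst hxv
    rw [heq y hxy.symm]
    exact mod_refl x
  have hyv : y ≠ v := by
    rintro rfl
    exact hxv (heq x hxy)
  by_cases hxA : x ∈ A
  · have hyA : y ∈ A := (hE.side x y hxyE).1 hxA
    obtain ⟨z, hxz⟩ := hiso x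
    have hz : z ∉ A := (hbip x z hxz).1 hxA
    by_cases hsing : ∀ w, G.Adj x w → E.r z w
    · -- all neighbours in one class
      have hsingy : ∀ w, G.Adj y w → E.r z w := by
        intro w hw
        by_contra hcon
        have h1 := hE.card_eq hstep hmin w hxA hxyE
        have h2 : 0 < (nb G E w y).card :=
          Finset.card_pos.2 ⟨w, by rw [mem_nb]; exact ⟨E.refl w, hw⟩⟩
        rw [← h1] at h2
        obtain ⟨w', hw'⟩ := Finset.card_pos.1 h2
        rw [mem_nb] at hw'
        exact hcon (E.trans (hsing w' hw'.2) (E.symm hw'.1))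
      by_cases hvz : E.r z v
      · -- the class of `v`
        have hzv : z = v := hE.alone z (E.symm hvz)
        apply htwin x y hxv hyv
        have key : ∀ p, p ∈ A → (∃ q, G.Adj p q) → (∀ w, G.Adj p w → E.r z w) →
            ext G A p = {v} := by
          intro p hp hq hs
          ext w
          rw [mem_ext hbip hp]
          constructor
          · intro h
            exact hE.alone w (E.trans (E.symm hvz) (hs w h))
          · intro h
            obtain ⟨q, hq⟩ := hq
            have h1 : q = v := hE.alone q (E.trans (E.symm hvz) (hs q hq))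
            have h2 : w = v := h
            rw [h2, ← h1]
            exact hq
        rw [key x hxA (hiso x) hsing, key y hyA (hiso y) hsingy]
      · refine ⟨{m | ext G A m ⊆ {d | E.r z d}}, hmodZ z hz, ?_, ?_, ?_⟩
        · intro h
          have h1 : v ∈ {m | ext G A m ⊆ {d | E.r z d}} := by rw [h]; trivial
          have h2 : ext G A v ⊆ {d | E.r z d} := h1
          rw [ext_of_notMem hbip hv, Set.singleton_subset_iff] at h2
          exact hvz h2
        · intro w hw
          exact hsing w ((mem_ext hbip hxA).1 hw)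
        · intro w hw
          exact hsingy w ((mem_ext hbip hyA).1 hw)
    · -- neighbours in two classes
      push Not at hsing
      obtain ⟨w, hxw, hzw⟩ := hsing
      have hw : w ∉ A := (hbip x w hxw).1 hxA
      apply htwin x y hxv hyv
      -- for every class there are neighbours in another class
      have hoth : ∀ u, u ∉ A → ∃ w', w' ∉ A ∧ G.Adj x w' ∧ ¬ E.r u w' := by
        intro u hu
        by_cases h : E.r u z
        · exact ⟨w, hw, hxw, fun h' => hzw (E.trans (E.symm h) h')⟩
        · exact ⟨z, hz, hxz, h⟩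
      ext u
      rw [mem_ext hbip hxA, mem_ext hbip hyA]
      by_cases hu : u ∈ A
      · constructor
        · intro h
          exact absurd hu ((hbip x u h).1 hxA)
        · intro h
          exact absurd hu ((hbip y u h).1 hyA)
      · obtain ⟨w', h1, h2, h3⟩ := hoth u hu
        have h4 := hE.nb_eq hconv hstep hmin hxA hxyE hu h1 h2 h3
        constructor
        · intro h
          have h5 : u ∈ nb G E u x := by rw [mem_nb]; exact ⟨E.refl u, h⟩
          rw [h4, mem_nb] at h5
          exact h5.2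
        · intro h
          have h5 : u ∈ nb G E u y := by rw [mem_nb]; exact ⟨E.refl u, h⟩
          rw [← h4, mem_nb] at h5
          exact h5.2
  · -- points
    have hyA : y ∉ A := fun h => hxA ((hE.side x y hxyE).2 h)
    refine ⟨{m | ext G A m ⊆ {d | E.r x d}}, hmodZ x hxA, ?_, ?_, ?_⟩
    · intro h
      have h1 : v ∈ {m | ext G A m ⊆ {d | E.r x d}} := by rw [h]; trivial
      have h2 : ext G A v ⊆ {d | E.r x d} := h1
      rw [ext_of_notMem hbip hv, Set.singleton_subset_iff] at h2
      exact hxv (hE.alone x (E.symm h2))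
    · intro w hw
      rw [ext_of_notMem hbip hxA] at hw
      have : w = x := hw
      rw [this]
      exact E.refl x
    · intro w hw
      rw [ext_of_notMem hbip hyA] at hw
      have : w = y := hw
      rw [this]
      exact hxyE

end

end Pool.Agent.J4.H77.WL
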