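import Pool.Agent.J4.H77.WL.Ratio
import Pool.Agent.J4.H79.PG.Uniform

/-!
# Bipartite graphs as set systems

`A` is one side of a bipartite graph. The extent of a vertex of `A` is the set of its neighbours, the
extent of a vertex of the other side is the vertex itself. The type of a pair of vertices says which
of the extents contains the other one and whether they meet.
-/

set_option autoImplicit false
set_option linter.unusedSectionVars false

namespace Pool.Agent.J4.H77.WL

open Relation Finset Pool.Agent.J4.H79.PG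

section
variable {V : Type} (G : SimpleGraph V) (A : Set V)

/-- the extent of a vertex -/
def ext (x : V) : Set V := {b | b ∉ A ∧ (b = x ∨ G.Adj x b)}

/-- the type of a pair -/
def rel (x y : V) : Prop × Prop × Prop :=
  (ext G A x ⊆ ext G A y, ext G A y ⊆ ext G A x, (ext G A x ∩ ext G A y).Nonempty)

variable {G A}

theorem ext_of_notMem (hbip : ∀ x y, G.Adj x y → (x ∈ A ↔ y ∉ A)) {b : V} (hb : b ∉ A) :
    ext G A b = {b} := by
  ext z
  constructor
  · rintro ⟨h1, h2⟩
    rcases h2 with h2 | h2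
    · exact h2
    · exact absurd ((hbip b z h2).2 h1) hb
  · rintro rfl
    exact ⟨hb, Or.inl rfl⟩

theorem mem_ext (hbip : ∀ x y, G.Adj x y → (x ∈ A ↔ y ∉ A)) {a z : V} (ha : a ∈ A) :
    z ∈ ext G A a ↔ G.Adj a z := by
  constructor
  · rintro ⟨h1, h2⟩
    rcases h2 with rfl | h2
    · exact absurd ha h1
    · exact h2
  · intro h
    exact ⟨(hbip a z h).1 ha, Or.inr h⟩

/-- incidence is a matter of the types -/
theorem adj_iff_sub (hbip : ∀ x y, G.Adj x y → (x ∈ A ↔ y ∉ A)) {a b : V} (ha : a ∈ A)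
    (hb : b ∉ A) : G.Adj a b ↔ ext G A b ⊆ ext G A a := by
  rw [ext_of_notMem hbip hb, Set.singleton_subset_iff, mem_ext hbip ha]

/-- A connected graph without full vertices in `A` has no uniform division. -/
theorem nd (hbip : ∀ x y, G.Adj x y → (x ∈ A ↔ y ∉ A)) (hconn : ∀ x y, ReflTransGen G.Adj x y)
    (hfull : ∀ x ∈ A, ∃ b, b ∉ A ∧ ¬ G.Adj x b) : ND (rel G A) := by
  rintro M t ⟨m0, hm0⟩ hM
  by_contra hc
  push Not at hc
  obtain ⟨y0, hy0⟩ := (Set.ne_univ_iff_exists_notMem M).1 hM
  obtain ⟨m, hm, y, hy, hmy⟩ : ∃ m ∈ M, ∃ y, y ∉ M ∧ G.Adj m y := by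
    by_contra h
    push Not at h
    have h3 : ∀ z, ReflTransGen G.Adj m0 z → z ∈ M := by
      intro z hz
      induction hz with
      | refl => exact hm0
      | tail _ h4 ih =>
        by_contra hcon
        exact h _ ih _ hcon h4
    exact hy0 (h3 y0 (hconn m0 y0))
  by_cases hyA : y ∈ A
  · have hmA : m ∉ A := fun h => ((hbip m y hmy).1 h) hyA
    have ht : t.2.1 := by
      rw [← hc m hm y hy]
      exact (adj_iff_sub hbip hyA hmA).1 hmy.symm
    have hsub : ∀ m' ∈ M, ∀ y', y' ∉ M → ext G A m' ⊆ ext G A y' := by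
      intro m' hm' y' hy'
      have h1 := hc m' hm' y' hy'
      have h2 : (rel G A y' m').2.1 := by rw [h1]; exact ht
      exact h2
    obtain ⟨b, hb, hyb⟩ := hfull y hyA
    apply hyb
    by_cases hbM : b ∈ M
    · exact (adj_iff_sub hbip hyA hb).2 (hsub b hbM y hy)
    · have h1 := hsub m hm b hbM
      rw [ext_of_notMem hbip hmA, ext_of_notMem hbip hb, Set.singleton_subset_iff] at h1
      have h2 : m = b := h1
      rw [h2] at hm
      exact absurd hm hbM
  · have hmA : m ∈ A := (hbip m y hmy).2 hyA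
    have ht : t.1 := by
      rw [← hc m hm y hy]
      exact (adj_iff_sub hbip hmA hyA).1 hmy
    have hsub : ∀ m' ∈ M, ∀ y', y' ∉ M → ext G A y' ⊆ ext G A m' := by
      intro m' hm' y' hy'
      have h1 := hc m' hm' y' hy'
      have h2 : (rel G A y' m').1 := by rw [h1]; exact ht
      exact h2
    obtain ⟨b, hb, hyb⟩ := hfull m hmA
    apply hyb
    by_cases hbM : b ∈ M
    · have h1 := hsub b hbM y hy
      rw [ext_of_notMem hbip hyA, ext_of_notMem hbip hb, Set.singleton_subset_iff] at h1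
      have h2 : y = b := h1
      rw [← h2] at hbM
      exact absurd hbM hy
    · exact (adj_iff_sub hbip hmA hb).2 (hsub m hm b hbM)

end

/-- Two bipartite graphs with sides, labels and a stable colouring of the pairs. -/
structure Stab (V : Bool → Type) (G : ∀ i, SimpleGraph (V i)) (A : ∀ i, Set (V i)) {L K : Type}
    (lab : ∀ i, V i → L) (c : ∀ i, V i → V i → K) : Prop where
  st : Stable V G c
  lab_eq : ∀ {i j : Bool} {x y : V i} {x' y' : V j}, c i x y = c j x' y' → lab i x = lab j x'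
  side : ∀ {i j : Bool} {x : V i} {x' : V j}, lab i x = lab j x' → (x ∈ A i ↔ x' ∈ A j)
  bip : ∀ i x y, (G i).Adj x y → (x ∈ A i ↔ y ∉ A i)

variable {V : Bool → Type} {G : ∀ i, SimpleGraph (V i)} {A : ∀ i, Set (V i)} {L K : Type}
  {lab : ∀ i, V i → L} {c : ∀ i, V i → V i → K}

theorem Stab.lab_right (h : Stab V G A lab c) {i j : Bool} {x y : V i} {x' y' : V j}
    (e : c i x y = c j x' y') : lab i y = lab j y' :=
  h.lab_eq (h.st.right e)

theorem Stab.side_left (h : Stab V G A lab c) {i j : Bool} {x y : V i} {x' y' : V j}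
    (e : c i x y = c j x' y') : x ∈ A i ↔ x' ∈ A j :=
  h.side (h.lab_eq e)

theorem Stab.side_right (h : Stab V G A lab c) {i j : Bool} {x y : V i} {x' y' : V j}
    (e : c i x y = c j x' y') : y ∈ A i ↔ y' ∈ A j :=
  h.side (h.lab_right e)

theorem Stab.mem_ext_right (h : Stab V G A lab c) {i j : Bool} {x b : V i} {x' b' : V j}
    (e : c i x b = c j x' b') : b ∈ ext (G i) (A i) x ↔ b' ∈ ext (G j) (A j) x' := by
  unfold ext
  refine and_congr (not_congr (h.side_right e)) (or_congr ?_ (h.st.adj_iff e))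
  have h1 := h.st.eq_iff e
  exact ⟨fun h2 => (h1.1 h2.symm).symm, fun h2 => (h1.2 h2.symm).symm⟩

theorem Stab.mem_ext_left (h : Stab V G A lab c) {i j : Bool} {x b : V i} {x' b' : V j}
    (e : c i b x = c j b' x') : b ∈ ext (G i) (A i) x ↔ b' ∈ ext (G j) (A j) x' := by
  unfold ext
  refine and_congr (not_congr (h.side_left e)) (or_congr (h.st.eq_iff e) ?_)
  rw [(G i).adj_comm, (G j).adj_comm]
  exact h.st.adj_iff e

/-- the type of the reversed pair -/
def rv (t : Prop × Prop × Prop) : Prop × Prop × Prop := (t.2.1, t.1, t.2.2)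

/-- the types are invariant -/
theorem Stab.inv2 (h : Stab V G A lab c) : Inv2 c (fun i => rel (G i) (A i)) rv where
  rev := by
    intro i x y
    unfold rel rv
    rw [Set.inter_comm]
  eq := by
    intro i j x y x' y' e
    obtain ⟨β, hβ⟩ := h.st.step e
    have h1 : ∀ z, z ∈ ext (G i) (A i) x ↔ β z ∈ ext (G j) (A j) x' := fun z =>
      h.mem_ext_right (hβ z).1
    have h2 : ∀ z, z ∈ ext (G i) (A i) y ↔ β z ∈ ext (G j) (A j) y' := fun z =>
      h.mem_ext_left (hβ z).2
    unfold rel
    refine Prod.ext (propext ?_) (Prod.ext (propext ?_) (propext ?_))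
    · constructor
      · intro hs w hw
        obtain ⟨z, rfl⟩ := β.surjective w
        exact (h2 z).1 (hs ((h1 z).2 hw))
      · intro hs w hw
        exact (h2 w).2 (hs ((h1 w).1 hw))
    · constructor
      · intro hs w hw
        obtain ⟨z, rfl⟩ := β.surjective w
        exact (h1 z).1 (hs ((h2 z).2 hw))
      · intro hs w hw
        exact (h1 w).2 (hs ((h2 w).1 hw))
    · constructor
      · rintro ⟨w, hw1, hw2⟩
        exact ⟨β w, (h1 w).1 hw1, (h2 w).1 hw2⟩
      · rintro ⟨w, hw1, hw2⟩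
        obtain ⟨z, rfl⟩ := β.surjective w
        exact ⟨z, (h1 z).2 hw1, (h2 z).2 hw2⟩

/-- restriction -/
theorem Stab.restrict (h : Stab V G A lab c) (S : ∀ i, Set (V i))
    (hP : ∀ {i j : Bool} {x y : V i} {x' y' : V j}, c i x y = c j x' y' → x ∈ S i → x' ∈ S j →
      (y ∈ S i ↔ y' ∈ S j)) :
    Stab (fun i => ↥(S i)) (fun i => (G i).induce (S i)) (fun i => {x | x.1 ∈ A i})
      (fun i x => lab i x.1) (fun i x y => c i x.1 y.1) where
  st := h.st.restrict S hP
  lab_eq := fun e => h.lab_eq e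
  side := fun e => h.side e
  bip := fun i x y hxy => h.bip i x.1 y.1 hxy

/-- isomorphisms that preserve the labels -/
def IsoL {V W L : Type} (G : SimpleGraph V) (H : SimpleGraph W) (l : V → L) (l' : W → L) : Prop :=
  ∃ φ : G ≃g H, ∀ x, l' (φ x) = l x

/-- The pieces of an isomorphism. -/
theorem assembleL {V W α β L : Type} (G : SimpleGraph V) (H : SimpleGraph W) (l : V → L)
    (l' : W → L) (f : V → α) (g : W → β) (σ : α ≃ β)
    (hiso : ∀ a, IsoL (G.induce {z | f z = a}) (H.induce {w | g w = σ a}) (fun x => l x.1)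
      (fun x => l' x.1))
    (hcross : ∀ x y x' y', f x ≠ f y → g x' = σ (f x) → g y' = σ (f y) → l' x' = l x →
      l' y' = l y → (G.Adj x y ↔ H.Adj x' y')) : IsoL G H l l' := by
  classical
  let φ : ∀ a, G.induce {z | f z = a} ≃g H.induce {w | g w = σ a} :=
    fun a => Classical.choose (hiso a)
  have hφ : ∀ a (x : {z | f z = a}), l' ((φ a) x).1 = l x.1 := fun a =>
    Classical.choose_spec (hiso a)
  have hg : ∀ x : V, g ((φ (f x)) ⟨x, rfl⟩).1 = σ (f x) := fun x => ((φ (f x)) ⟨x, rfl⟩).2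
  let F : V → W := fun x => ((φ (f x)) ⟨x, rfl⟩).1
  have hlF : ∀ x, l' (F x) = l x := fun x => hφ (f x) ⟨x, rfl⟩
  have hF : ∀ (a : α) (x : V) (hx : f x = a), F x = ((φ a) ⟨x, hx⟩).1 := by
    rintro _ x rfl
    rfl
  have hinj : Function.Injective F := by
    intro x y hxy
    have h1 : f x = f y := by
      apply σ.injective
      rw [← hg x, ← hg y]
      exact congrArg g hxy
    have h2 := hF (f y) x h1
    have h3 := hF (f y) y rfl
    rw [h2, h3] at hxy
    have h4 := (φ (f y)).injective (Subtype.ext hxy)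
    exact congrArg Subtype.val h4
  have hsurj : Function.Surjective F := by
    intro w
    have hw : g w = σ (σ.symm (g w)) := (σ.apply_symm_apply _).symm
    let z := (φ (σ.symm (g w))).symm ⟨w, hw⟩
    refine ⟨z.1, ?_⟩
    rw [hF _ z.1 z.2]
    show ((φ (σ.symm (g w))) z).1 = w
    rw [RelIso.apply_symm_apply]
  refine ⟨⟨Equiv.ofBijective F ⟨hinj, hsurj⟩, ?_⟩, fun x => hlF x⟩
  intro x y
  show H.Adj (F x) (F y) ↔ G.Adj x y
  by_cases h : f x = f y
  · rw [hF (f y) x h, hF (f y) y rfl]
    exact (φ (f y)).map_adj_iff (v := ⟨x, h⟩) (w := ⟨y, rfl⟩)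
  · exact (hcross x y (F x) (F y) h (hg x) (hg y) (hlF x) (hlF y)).symm

end Pool.Agent.J4.H77.WL
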