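import Pool.Agent.J4.H77.WL.Convex
import Pool.Agent.J4.H79.PG.Main

/-!
# Convex bipartite graphs: the induction
-/

set_option autoImplicit false
set_option linter.unusedSectionVars false

namespace Pool.Agent.J4.H77.WL

open Relation Finset Pool.Agent.J4.H79.PG

section
variable {V : Bool → Type} [∀ i, Fintype (V i)] {G : ∀ i, SimpleGraph (V i)}
  {A : ∀ i, Set (V i)} {L K : Type} {lab : ∀ i, V i → L} {c : ∀ i, V i → V i → K}

/-- The case without uniform division. -/
theorem modular (h : Stab V G A lab c) (hnd : ∀ i, ND (rel (G i) (A i)))
    (hnt : ∀ i, Nontrivial (V i))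
    (hsep : ∃ v : V false, ∀ x y, c false v x = c false v y →
      Mod (rel (G false) (A false)) x y)
    (hlink : ∃ x x', c false x x = c true x' x')
    (ih : ∀ (S : ∀ i, Set (V i)), (∃ y, y ∉ S false) →
      Stab (fun i => ↥(S i)) (fun i => (G i).induce (S i)) (fun i => {x | x.1 ∈ A i})
        (fun i x => lab i x.1) (fun i x y => c i x.1 y.1) →
      (∃ (x : S false) (x' : S true), c false x x = c true x' x') →
      IsoL ((G false).induce (S false)) ((G true).induce (S true)) (fun x => lab false x.1)
        (fun x => lab true x.1)) :
    IsoL (G false) (G true) (lab false) (lab true) := by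
  classical
  have := hnt false
  have := hnt true
  have hS := h.st
  have hR := h.inv2
  -- the invariant equivalence relation
  have hinv : ∀ {i j : Bool} {x y : V i} {x' y' : V j}, c i x y = c j x' y' →
      (Mod (rel (G i) (A i)) x y ↔ Mod (rel (G j) (A j)) x' y') := fun e =>
    ⟨mod_invariant hS hR hnd hnt e, mod_invariant hS hR hnd hnt e.symm⟩
  have htr : ∀ (i : Bool) {x y z : V i}, Mod (rel (G i) (A i)) x y → Mod (rel (G i) (A i)) y z →
      Mod (rel (G i) (A i)) x z := fun i _ _ _ h1 h2 =>
    Mod.trans (rev := rv) (hR.rev i) (hnd i) h1 h2
  let E : ∀ i, Setoid (V i) := fun i =>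
    { r := Mod (rel (G i) (A i))
      iseqv := ⟨fun x => by have := hnt i; exact mod_refl x, fun h => h.symm,
        fun h h' => htr i h h'⟩ }
  -- an extreme vertex and a partner
  obtain ⟨v, sepG'⟩ := hsep
  obtain ⟨x0, x0', hx0⟩ := hlink
  obtain ⟨β0, hβ0⟩ := hS.row hx0
  have hvv : c false v v = c true (β0 v) (β0 v) := hS.right (hβ0 v)
  set v' := β0 v with hv'
  obtain ⟨β, hβ⟩ := hS.row hvv
  have sepG : ∀ {x y : V false}, c false v x = c false v y → Mod (rel (G false) (A false)) x y :=
    fun {x y} hxy => sepG' x y hxy
  have sepH : ∀ {a b : V true}, c true v' a = c true v' b → Mod (rel (G true) (A true)) a b := by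
    intro a b hab
    have ha : c false v (β.symm a) = c true v' a := by
      have := hβ (β.symm a)
      rwa [β.apply_symm_apply] at this
    obtain ⟨γ, hγ⟩ := hS.step ha
    obtain ⟨z, rfl⟩ := γ.surjective b
    have h3 : Mod (rel (G false) (A false)) z (β.symm a) :=
      sepG ((hγ z).1.trans (hab.symm.trans ha.symm))
    exact ((hinv (hγ z).2).1 h3).symm
  -- transport from a point to a point
  have trans : ∀ x y : V false, ∃ y' : V true, Mod (rel (G true) (A true)) y' (β y) ∧
      c false y x = c true y' (β x) := by
    intro x y
    obtain ⟨γ, hγ⟩ := hS.step (hβ x)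
    exact ⟨γ y, sepH ((hγ y).1.symm.trans (hβ y)), (hγ y).2⟩
  have hEiff : ∀ x y : V false, Mod (rel (G false) (A false)) x y ↔
      Mod (rel (G true) (A true)) (β x) (β y) := by
    intro x y
    obtain ⟨y', h3, h4⟩ := trans x y
    constructor
    · intro h
      have h5 : Mod (rel (G true) (A true)) y' (β x) := (hinv h4).1 h.symm
      exact htr true (h5.symm) h3
    · intro h
      have h5 : Mod (rel (G true) (A true)) y' (β x) := htr true h3 h.symm
      exact ((hinv h4).2 h5).symm
  have hcross : ∀ x y : V false, ¬ Mod (rel (G false) (A false)) x y →
      rel (G false) (A false) x y = rel (G true) (A true) (β x) (β y) := by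
    intro x y hxy
    obtain ⟨y', h3, h4⟩ := trans x y
    have h5 : rel (G false) (A false) y x = rel (G true) (A true) y' (β x) := hR.eq h4
    have h6 : ¬ Mod (rel (G true) (A true)) y' (β x) := fun h6 => hxy ((hinv h4).2 h6).symm
    have h7 := h3.type_eq h6
    rw [hR.rev false y x, h5, ← h7, ← hR.rev true y' (β x)]
  -- the bijection of the classes
  let σ : Quotient (E false) ≃ Quotient (E true) := Quotient.congr β fun x y => hEiff x y
  have hσ : ∀ x, σ (Quotient.mk (E false) x) = Quotient.mk (E true) (β x) := fun x => rfl
  refine assembleL (G false) (G true) _ _ (Quotient.mk (E false)) (Quotient.mk (E true)) σ ?_ ?_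
  · intro q
    induction q using Quotient.inductionOn with
    | _ x =>
      rw [hσ]
      have e1 : {z | Quotient.mk (E false) z = Quotient.mk (E false) x} =
          {z | Mod (rel (G false) (A false)) x z} := by
        ext z
        exact ⟨fun h => (E false).symm (Quotient.exact h), fun h => Quotient.sound ((E false).symm h)⟩
      have e2 : {z | Quotient.mk (E true) z = Quotient.mk (E true) (β x)} =
          {z | Mod (rel (G true) (A true)) (β x) z} := by
        ext z
        exact ⟨fun h => (E true).symm (Quotient.exact h), fun h => Quotient.sound ((E true).symm h)⟩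
      rw [e1, e2]
      let b : ∀ i, V i := fun i => match i with
        | false => x
        | true => β x
      have hlinkb : ∀ i j, c i (b i) (b i) = c j (b j) (b j) := by
        have h5 : c false x x = c true (β x) (β x) := hS.right (hβ x)
        intro i j
        match i, j with
        | false, false => rfl
        | true, true => rfl
        | false, true => exact h5
        | true, false => exact h5.symm
      have hstab := h.restrict (fun i => {z | Mod (rel (G i) (A i)) (b i) z}) (by
        intro i j p q p' q' hpq hp hp'
        have hp1 : Mod (rel (G i) (A i)) (b i) p := hp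
        have hp1' : Mod (rel (G j) (A j)) (b j) p' := hp'
        constructor
        · intro hq
          exact htr j hp1' ((hinv hpq).1 (htr i (hp1.symm) hq))
        · intro hq
          exact htr i hp1 ((hinv hpq).2 (htr j (hp1'.symm) hq)))
      refine ih (fun i => {z | Mod (rel (G i) (A i)) (b i) z}) ?_ hstab ?_
      · exact exists_not_mod (rev := rv) (hR.rev false) (hnd false) x
      · refine ⟨⟨x, mod_refl x⟩, ⟨β x, mod_refl (β x)⟩, ?_⟩
        exact hlinkb false true
  · intro x y x' y' h3 h4 h5 lx ly
    have h6 : ¬ Mod (rel (G false) (A false)) x y := fun h => h3 (Quotient.sound h)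
    rw [hσ] at h4 h5
    have h4' : Mod (rel (G true) (A true)) x' (β x) := Quotient.exact h4
    have h5' : Mod (rel (G true) (A true)) y' (β y) := Quotient.exact h5
    have h7 : ¬ Mod (rel (G true) (A true)) (β x) (β y) := fun h => h6 ((hEiff x y).2 h)
    have h8 : ¬ Mod (rel (G true) (A true)) x' (β y) := fun h => h7 (htr true (h4'.symm) h)
    have h9 : ¬ Mod (rel (G true) (A true)) y' x' := fun h =>
      h8 (htr true h.symm h5')
    -- the types agree
    have t1 : rel (G true) (A true) x' y' = rel (G true) (A true) (β x) (β y) := by
      have e1 : rel (G true) (A true) x' y' = rel (G true) (A true) x' (β y) :=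
        h5'.type_eq h9
      have e2 : rel (G true) (A true) (β y) x' = rel (G true) (A true) (β y) (β x) :=
        h4'.type_eq h8
      rw [e1, hR.rev true (β y) x', e2, ← hR.rev true (β y) (β x)]
    have t2 : rel (G false) (A false) x y = rel (G true) (A true) x' y' := by
      rw [hcross x y h6, t1]
    have t3 : rel (G false) (A false) y x = rel (G true) (A true) y' x' := by
      rw [hR.rev false x y, t2, ← hR.rev true x' y']
    have s1 := h.side lx
    have s2 := h.side ly
    have hb := h.bip false
    have hb' := h.bip true
    by_cases hx : x ∈ A false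
    · by_cases hy : y ∈ A false
      · exact ⟨fun h => absurd hy ((hb x y h).1 hx),
          fun h => absurd (s2.2 hy) ((hb' x' y' h).1 (s1.2 hx))⟩
      · rw [adj_iff_sub hb hx hy, adj_iff_sub hb' (s1.2 hx) (fun h => hy (s2.1 h))]
        exact iff_of_eq (congrArg (fun t => t.2.1) t2)
    · by_cases hy : y ∈ A false
      · rw [(G false).adj_comm, (G true).adj_comm, adj_iff_sub hb hy hx,
          adj_iff_sub hb' (s2.2 hy) (fun h => hx (s1.1 h))]
        exact iff_of_eq (congrArg (fun t => t.2.1) t3)
      · exact ⟨fun h => absurd ((hb x y h).2 hy) hx,
          fun h => absurd (s1.1 ((hb' x' y' h).2 (fun h' => hy (s2.1 h')))) hx⟩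

end

/-- the neighbourhoods of the vertices in `A` are intervals of a linear order of the other side -/
def IsConvex {V : Type} (G : SimpleGraph V) (A : Set V) : Prop :=
  ∃ L : LinearOrder V, ∀ x ∈ A, ∀ b d e, e ∉ A → G.Adj x b → G.Adj x d → L.lt b e → L.lt e d →
    G.Adj x e

theorem IsConvex.induce {V : Type} {G : SimpleGraph V} {A : Set V} (h : IsConvex G A)
    (S : Set V) : IsConvex (G.induce S) {x | x.1 ∈ A} := by
  obtain ⟨L, h⟩ := h
  exact ⟨@LinearOrder.lift' S V L Subtype.val Subtype.val_injective,
    fun x hx b d e he h1 h2 h3 h4 => h x.1 hx b.1 d.1 e.1 he h1 h2 h3 h4⟩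

/-- **The induction.** -/
theorem iso_of_stab (n : ℕ) : ∀ (V : Bool → Type) [∀ i, Fintype (V i)]
    (G : ∀ i, SimpleGraph (V i)) (A : ∀ i, Set (V i)) {L K : Type} (lab : ∀ i, V i → L)
    (c : ∀ i, V i → V i → K), Stab V G A lab c →
    Nat.card (V false) ≤ n → IsConvex (G false) (A false) →
    (∃ x x', c false x x = c true x' x') → IsoL (G false) (G true) (lab false) (lab true) := by
  induction n with
  | zero =>
    intro V _ G A L K lab c hS hn hG hlink
    obtain ⟨x, -⟩ := hlink
    have : Nonempty (V false) := ⟨x⟩
    have := Nat.card_pos (α := V false)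
    omega
  | succ n ih =>
    intro V _ G A L K lab c h hn hG hlink
    classical
    have hS := h.st
    -- the induction hypothesis for proper subsets
    have ih' : ∀ (S : ∀ i, Set (V i)), (∃ y, y ∉ S false) →
        Stab (fun i => ↥(S i)) (fun i => (G i).induce (S i)) (fun i => {x | x.1 ∈ A i})
          (fun i x => lab i x.1) (fun i x y => c i x.1 y.1) →
        (∃ (x : S false) (x' : S true), c false x x = c true x' x') →
        IsoL ((G false).induce (S false)) ((G true).induce (S true)) (fun x => lab false x.1)
          (fun x => lab true x.1) := by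
      intro S ⟨y, hy⟩ hst hl
      refine ih (fun i => ↥(S i)) (fun i => (G i).induce (S i)) (fun i => {x | x.1 ∈ A i})
        (fun i x => lab i x.1) (fun i x y => c i x.1 y.1) hst ?_ (hG.induce _) hl
      have h1 : Nat.card (S false) < Nat.card (V false) := by
        rw [Nat.card_eq_fintype_card, Nat.card_eq_fintype_card]
        exact Fintype.card_subtype_lt (p := fun z => z ∈ S false) hy
      exact Nat.le_of_lt_succ (lt_of_lt_of_le h1 hn)
    obtain ⟨x0, x0', hx0⟩ := hlink
    obtain ⟨β, hβ⟩ := hS.row hx0
    by_cases hfull : ∃ x, x ∈ A false ∧ ∀ b, b ∉ A false → (G false).Adj x b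
    · -- full vertices
      let F : ∀ i, Set (V i) := fun i => {x | x ∈ A i ∧ ∀ b, b ∉ A i → (G i).Adj x b}
      have hF : ∀ {i j : Bool} {x y : V i} {x' y' : V j}, c i x y = c j x' y' →
          (x ∈ F i ↔ x' ∈ F j) := by
        intro i j x y x' y' e
        obtain ⟨γ, hγ⟩ := hS.row (hS.left e)
        refine and_congr (h.side_left e) ⟨fun hh w hw => ?_, fun hh w hw => ?_⟩
        · obtain ⟨z, rfl⟩ := γ.surjective w
          exact (hS.adj_iff (hγ z)).1 (hh z fun hz => hw ((h.side_right (hγ z)).1 hz))
        · exact (hS.adj_iff (hγ w)).2 (hh (γ w) fun hz => hw ((h.side_right (hγ w)).2 hz))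
      have hFr : ∀ {i j : Bool} {x y : V i} {x' y' : V j}, c i x y = c j x' y' →
          (y ∈ F i ↔ y' ∈ F j) := fun e => hF (hS.right e)
      refine assembleL (G false) (G true) _ _ (fun x => x ∈ F false) (fun x => x ∈ F true)
        (Equiv.refl Prop) ?_ ?_
      · intro a
        rw [Equiv.refl_apply]
        by_cases ha : a
        · have ha' : a = True := eq_true ha
          subst ha'
          have hsub : ∀ z, z ∈ {z | (z ∈ F false) = True} ↔ β z ∈ {z | (z ∈ F true) = True} := by
            intro z
            have e1 : z ∈ {z | (z ∈ F false) = True} ↔ z ∈ F false := ⟨of_eq_true, eq_true⟩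
            have e2 : β z ∈ {z | (z ∈ F true) = True} ↔ β z ∈ F true := ⟨of_eq_true, eq_true⟩
            rw [e1, e2]
            exact hFr (hβ z)
          refine ⟨⟨β.subtypeEquiv hsub, ?_⟩, ?_⟩
          · rintro ⟨x, hx⟩ ⟨y, hy⟩
            have hx' : x ∈ F false := of_eq_true hx
            have hy' : y ∈ F false := of_eq_true hy
            constructor
            · intro hadj
              have hadj' : (G true).Adj (β x) (β y) := hadj
              exact absurd ((hFr (hβ y)).1 hy').1 ((h.bip true _ _ hadj').1 ((hFr (hβ x)).1 hx').1)
            · intro hadj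
              have hadj' : (G false).Adj x y := hadj
              exact absurd hy'.1 ((h.bip false _ _ hadj').1 hx'.1)
          · rintro ⟨x, hx⟩
            exact (h.lab_right (hβ x)).symm
        · have ha' : a = False := eq_false ha
          subst ha'
          have e : ∀ i (z : V i), z ∈ {z | (z ∈ F i) = False} ↔ z ∉ F i := fun i z =>
            ⟨fun h => of_eq_false h, fun h => eq_false h⟩
          by_cases hne : ∃ x, x ∉ F false
          · obtain ⟨x1, hx1⟩ := hne
            refine ih' (fun i => {z | (z ∈ F i) = False}) ?_ ?_ ?_
            · obtain ⟨x, hx⟩ := hfull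
              exact ⟨x, fun hc => (e false x).1 hc hx⟩
            · refine h.restrict (fun i => {z | (z ∈ F i) = False}) ?_
              intro i j x y x' y' hxy _ _
              rw [e, e]
              exact not_congr (hFr hxy)
            · refine ⟨⟨x1, (e false x1).2 hx1⟩, ⟨β x1, (e true _).2 fun hc => hx1 ((hFr (hβ x1)).2 hc)⟩,
                hS.right (hβ x1)⟩
          · push Not at hne
            have i1 : IsEmpty ({z | (z ∈ F false) = False} : Set (V false)) :=
              ⟨fun z => (e false z.1).1 z.2 (hne z.1)⟩
            have i2 : IsEmpty ({z | (z ∈ F true) = False} : Set (V true)) := by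
              refine ⟨fun z => (e true z.1).1 z.2 ?_⟩
              have h1 := hβ (β.symm z.1)
              rw [β.apply_symm_apply] at h1
              exact (hFr h1).1 (hne _)
            refine ⟨⟨Equiv.equivOfIsEmpty _ _, fun {a} => i1.elim a⟩, fun x => i1.elim x⟩
      · intro x y x' y' hne h1 h2 l1 l2
        have k1 : x' ∈ F true ↔ x ∈ F false := iff_of_eq h1
        have k2 : y' ∈ F true ↔ y ∈ F false := iff_of_eq h2
        have s1 := h.side l1
        have s2 := h.side l2
        have hadj : ∀ (i : Bool) (p q : V i), p ∈ F i → ((G i).Adj p q ↔ q ∉ A i) :=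
          fun i p q hp => ⟨fun ha => (h.bip i p q ha).1 hp.1, fun ha => hp.2 q ha⟩
        by_cases hx : x ∈ F false
        · rw [hadj false x y hx, hadj true x' y' (k1.2 hx)]
          exact not_congr s2.symm
        · have hy : y ∈ F false := by
            by_contra hc
            exact hne (propext ⟨fun h => absurd h hx, fun h => absurd h hc⟩)
          rw [(G false).adj_comm, (G true).adj_comm, hadj false y x hy, hadj true y' x' (k2.2 hy)]
          exact not_congr s1.symm
    · push Not at hfull
      by_cases hconn : ∀ x y, ReflTransGen (G false).Adj x y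
      · by_cases hsub : Subsingleton (V false)
        · have : Subsingleton (V true) := β.symm.injective.subsingleton
          refine ⟨⟨β, fun {a b} => ?_⟩, fun x => (h.lab_right (hβ x)).symm⟩
          exact ⟨fun h => absurd (Subsingleton.elim _ _) h.ne,
            fun h => absurd (Subsingleton.elim _ _) h.ne⟩
        · rw [not_subsingleton_iff_nontrivial] at hsub
          -- every pair of the second graph has the colour of a pair of the first one
          have hpair : ∀ a b : V true, ∃ x y : V false, c false x y = c true a b := by
            intro a b
            obtain ⟨x, rfl⟩ := β.surjective a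
            obtain ⟨γ, hγ⟩ := hS.row (hS.right (hβ x))
            exact ⟨x, γ.symm b, by rw [hγ, γ.apply_symm_apply]⟩
          have hnt : ∀ i, Nontrivial (V i) := by
            intro i
            match i with
            | false => exact hsub
            | true => exact β.symm.surjective.nontrivial
          have hnd : ∀ i, ND (rel (G i) (A i)) := by
            intro i
            match i with
            | false => exact nd (h.bip false) hconn hfull
            | true =>
              refine nd (h.bip true) ?_ ?_
              · intro a b
                obtain ⟨x, y, e⟩ := hpair a b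
                exact hS.closure (fun i => (G i).Adj) (fun h => (hS.adj_iff h).1) e (hconn x y)
              · intro a ha
                obtain ⟨x, y, e⟩ := hpair a a
                obtain ⟨b, hb1, hb2⟩ := hfull x ((h.side_left e).2 ha)
                obtain ⟨γ, hγ⟩ := hS.row (hS.left e)
                exact ⟨γ b, fun hc => hb1 ((h.side_right (hγ b)).2 hc),
                  fun hc => hb2 ((hS.adj_iff (hγ b)).2 hc)⟩
          refine modular h hnd hnt ?_ ⟨x0, x0', hx0⟩ ih'
          -- row separation
          obtain ⟨LO, hL⟩ := hG
          let _ := LO
          have hiso : ∀ x, ∃ y, (G false).Adj x y := by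
            intro x
            obtain ⟨y, hy⟩ := exists_ne x
            rcases (hconn x y).cases_head with h1 | ⟨z, h1, -⟩
            · exact absurd h1.symm hy
            · exact ⟨z, h1⟩
          have hBne : ((univ : Finset (V false)).filter fun b => b ∉ A false).Nonempty := by
            obtain ⟨y, hy⟩ := hiso x0
            by_cases hx : x0 ∈ A false
            · exact ⟨y, by rw [mem_filter]; exact ⟨mem_univ _, (h.bip false _ _ hy).1 hx⟩⟩
            · exact ⟨x0, by rw [mem_filter]; exact ⟨mem_univ _, hx⟩⟩
          obtain ⟨v, hv1, hv2⟩ := Finset.exists_min_image _ (id : V false → V false) hBne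
          rw [mem_filter] at hv1
          refine ⟨v, fun x y hxy => ?_⟩
          refine row_sep (c := c false) (v := v) (h.bip false) hL hiso hv1.2
            (fun b hb => hv2 b (by rw [mem_filter]; exact ⟨mem_univ _, hb⟩))
            (fun a b hab => h.side_right hab)
            (fun x hx => ((hS.eq_iff hx).2 rfl).symm) (fun a b hab => ?_) hxy
          obtain ⟨γ, hγ⟩ := hS.step hab
          exact ⟨γ, fun z => ⟨(hγ z).1, hS.adj_iff (hγ z).2⟩⟩
      · -- several components
        obtain ⟨E, hE, hinv⟩ := invariant_setoid hS (fun i => (G i).Adj)
          (fun e => (hS.adj_iff e).1) (fun i x y h => h.symm)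
        obtain ⟨σ, hσ⟩ := exists_class_equiv hS hinv ⟨x0, x0', hx0⟩
        refine assembleL (G false) (G true) _ _ (Quotient.mk (E false)) (Quotient.mk (E true)) σ
          ?_ ?_
        · intro q
          induction q using Quotient.inductionOn with
          | _ x =>
            have h1 : c false x x ∈ cols c E true (σ (Quotient.mk (E false) x)) := by
              rw [hσ]
              exact ⟨x, rfl, rfl⟩
            obtain ⟨x', h2, h3⟩ := h1
            rw [← h2]
            have e1 : {z | Quotient.mk (E false) z = Quotient.mk (E false) x} =
                {z | (E false).r x z} := by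
              ext z
              exact ⟨fun h => (E false).symm (Quotient.exact h),
                fun h => Quotient.sound ((E false).symm h)⟩
            have e2 : {z | Quotient.mk (E true) z = Quotient.mk (E true) x'} =
                {z | (E true).r x' z} := by
              ext z
              exact ⟨fun h => (E true).symm (Quotient.exact h),
                fun h => Quotient.sound ((E true).symm h)⟩
            rw [e1, e2]
            let p : ∀ i, V i := fun i => match i with
              | false => x
              | true => x'
            have hst := h.restrict (fun i => {z | (E i).r (p i) z}) (by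
              intro i j a d a' d' had ha ha'
              constructor
              · intro hd
                exact (E j).trans ha' ((hinv.iff had).1 ((E i).trans ((E i).symm ha) hd))
              · intro hd
                exact (E i).trans ha ((hinv.iff had).2 ((E j).trans ((E j).symm ha') hd)))
            refine ih' (fun i => {z | (E i).r (p i) z}) ?_ hst
              ⟨⟨x, (E false).refl x⟩, ⟨x', (E true).refl x'⟩, h3.symm⟩
            by_contra hc
            push Not at hc
            apply hconn
            intro y z
            rw [← hE]
            exact (E false).trans ((E false).symm (hc y)) (hc z)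
        · intro x y x' y' h1 h2 h3 _ _
          constructor
          · intro hadj
            exact absurd (Quotient.sound ((hE false x y).2 (ReflTransGen.single hadj))) h1
          · intro hadj
            apply absurd (σ.injective _) h1
            rw [← h2, ← h3]
            exact Quotient.sound ((hE true x' y').2 (ReflTransGen.single hadj))

end Pool.Agent.J4.H77.WL
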