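import Pool.Agent.J4.H77.WL.Two

/-!
# Circular convex bipartite graphs
-/

set_option autoImplicit false
set_option linter.unusedSectionVars false

namespace Pool.Agent.J4.H77.WL

open Relation Finset Pool.Agent.J4.H79.PG

/-- The other side has a linear order such that the neighbourhood of each vertex of `A`, or the
complement of it in the other side, is an interval. -/
def IsCircConvex {V : Type} (G : SimpleGraph V) (A : Set V) : Prop :=
  ∃ L : LinearOrder V, ∀ x ∈ A,
    (∀ b d e, e ∉ A → G.Adj x b → G.Adj x d → L.lt b e → L.lt e d → G.Adj x e) ∨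
    (∀ b d e, b ∉ A → d ∉ A → e ∉ A → ¬ G.Adj x b → ¬ G.Adj x d → L.lt b e → L.lt e d →
      ¬ G.Adj x e)

section
variable {V : Type} (G : SimpleGraph V) (A : Set V) (b : V)

/-- the neighbourhoods which contain `b` are replaced by their complements -/
def flipG : SimpleGraph V where
  Adj x y := (x ∈ A ∧ y ∉ A ∧ ¬ (G.Adj x y ↔ G.Adj x b)) ∨
    (y ∈ A ∧ x ∉ A ∧ ¬ (G.Adj y x ↔ G.Adj y b))
  symm := ⟨fun _ _ h => h.symm⟩
  loopless := ⟨fun _ h => h.elim (fun h => h.2.1 h.1) (fun h => h.2.1 h.1)⟩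

variable {G A b}

theorem flip_adj {x y : V} (hx : x ∈ A) (hy : y ∉ A) :
    (flipG G A b).Adj x y ↔ ¬ (G.Adj x y ↔ G.Adj x b) := by
  show (_ ∨ _) ↔ _
  constructor
  · rintro (h | h)
    · exact h.2.2
    · exact absurd h.1 hy
  · intro h
    exact Or.inl ⟨hx, hy, h⟩

theorem flip_bip (x y : V) (h : (flipG G A b).Adj x y) : x ∈ A ↔ y ∉ A := by
  rcases h with h | h
  · exact ⟨fun _ => h.2.1, fun _ => h.1⟩
  · exact ⟨fun h' => absurd h' h.2.1, fun h' => absurd h.1 h'⟩

/-- If `b` is the first point then the intervals that do not contain it, and the complements of the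
other ones, are convex. -/
theorem convex_of_circ [LinearOrder V] (hbA : b ∉ A) (hmin : ∀ e, e ∉ A → b ≤ e) {x : V}
    (hcirc : (∀ b d e, e ∉ A → G.Adj x b → G.Adj x d → b < e → e < d → G.Adj x e) ∨
      (∀ b d e, b ∉ A → d ∉ A → e ∉ A → ¬ G.Adj x b → ¬ G.Adj x d → b < e → e < d →
        ¬ G.Adj x e)) (u w e : V) (hu : u ∉ A) (hw : w ∉ A) (he : e ∉ A)
    (h1 : ¬ (G.Adj x u ↔ G.Adj x b)) (h2 : ¬ (G.Adj x w ↔ G.Adj x b)) (h3 : u < e) (h4 : e < w) :
    ¬ (G.Adj x e ↔ G.Adj x b) := by
  have hbu : b < u := by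
    refine lt_of_le_of_ne (hmin u hu) ?_
    rintro rfl
    exact h1 Iff.rfl
  by_cases hb : G.Adj x b
  · have h1' : ¬ G.Adj x u := fun h => h1 ⟨fun _ => hb, fun _ => h⟩
    have h2' : ¬ G.Adj x w := fun h => h2 ⟨fun _ => hb, fun _ => h⟩
    intro h
    have h5 : G.Adj x e := h.2 hb
    rcases hcirc with hc | hc
    · exact h1' (hc b e u hu hb h5 hbu h3)
    · exact hc u w e hu hw he h1' h2' h3 h4 h5
  · have h1' : G.Adj x u := by
      by_contra h
      exact h1 ⟨fun h' => absurd h' h, fun h' => absurd h' hb⟩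
    have h2' : G.Adj x w := by
      by_contra h
      exact h2 ⟨fun h' => absurd h' h, fun h' => absurd h' hb⟩
    intro h
    have h5 : ¬ G.Adj x e := fun h' => hb (h.1 h')
    rcases hcirc with hc | hc
    · exact h5 (hc u w e he h1' h2' h3 h4)
    · exact hc b e u hbA he hu hb h5 hbu h3 h1'

end

section
variable {V : Bool → Type} [∀ i, Fintype (V i)] {G : ∀ i, SimpleGraph (V i)}
  {K : Type} {c : ∀ i, V i → V i → K}

/-- The colours of the pairs determine the colours of the pairs with the base point. -/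
def Based (c : ∀ i, V i → V i → K) (b : ∀ i, V i) : Prop :=
  ∀ {i j : Bool} {x y : V i} {x' y' : V j}, c i x y = c j x' y' → c i (b i) x = c j (b j) x'

/-- The case of connected graphs. -/
theorem circ_conn (hS : Stable V G c) (b : ∀ i, V i) (hP : Based c b)
    (hconn : ∀ i x y, ReflTransGen (G i).Adj x y)
    (A0 : Set (V false)) (hbip : ∀ x y, (G false).Adj x y → (x ∈ A0 ↔ y ∉ A0))
    (L : LinearOrder (V false)) (hcirc : ∀ x ∈ A0,
      (∀ b d e, e ∉ A0 → (G false).Adj x b → (G false).Adj x d → L.lt b e → L.lt e d →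
        (G false).Adj x e) ∨
      (∀ b d e, b ∉ A0 → d ∉ A0 → e ∉ A0 → ¬ (G false).Adj x b → ¬ (G false).Adj x d →
        L.lt b e → L.lt e d → ¬ (G false).Adj x e))
    (hb0 : b false ∉ A0) (hmin : ∀ e, e ∉ A0 → L.le (b false) e)
    (hlink : ∃ x x', c false x x = c true x' x') :
    Nonempty (G false ≃g G true) := by
  classical
  obtain ⟨w0, w0', hw0⟩ := hlink
  obtain ⟨β, hβ⟩ := hS.row hw0
  let A : ∀ i, Set (V i) := fun i => {x | ¬ Ev (G i) (b i) x}
  have hAf : ∀ x, x ∈ A false ↔ x ∈ A0 := by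
    intro x
    have h1 := ev_iff hbip (hconn false) (b false) x
    constructor
    · intro h
      by_contra hc
      exact h (h1.2 ⟨fun h' => absurd h' hb0, fun h' => absurd h' hc⟩)
    · intro h h'
      exact hb0 ((h1.1 h').2 h)
  have hsideL : ∀ {i j : Bool} {x : V i} {x' : V j}, c i (b i) x = c j (b j) x' →
      (x ∈ A i ↔ x' ∈ A j) := fun h => not_congr (ev_inv hS h)
  have hadjb : ∀ {i j : Bool} {x : V i} {x' : V j}, c i (b i) x = c j (b j) x' →
      ((G i).Adj x (b i) ↔ (G j).Adj x' (b j)) := by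
    intro i j x x' h
    rw [(G i).adj_comm, (G j).adj_comm]
    exact hS.adj_iff h
  have hP2 : ∀ {i j : Bool} {x y : V i} {x' y' : V j}, c i x y = c j x' y' →
      c i (b i) y = c j (b j) y' := fun h => hP (hS.right h)
  -- both graphs are bipartite
  have hbipf : ∀ x y, (G false).Adj x y → (x ∈ A false ↔ y ∉ A false) := by
    intro x y hxy
    rw [hAf, hAf]
    exact hbip x y hxy
  have hbipt : ∀ x y, (G true).Adj x y → (x ∈ A true ↔ y ∉ A true) := by
    intro x y hxy
    obtain ⟨p, rfl⟩ := β.surjective x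
    obtain ⟨γ, hγ⟩ := hS.row (hS.right (hβ p))
    obtain ⟨q, rfl⟩ := γ.surjective y
    have h1 := hbipf p q ((hS.adj_iff (hγ q)).2 hxy)
    rw [hsideL (hP (hγ q)), hsideL (hP2 (hγ q))] at h1
    exact h1
  have hSt : Stab V (fun i => flipG (G i) (A i) (b i)) A (fun i x => c i (b i) x) c := by
    refine ⟨⟨fun h => hS.eq_iff h, fun {i j x y x' y'} h => ?_, fun h => hS.step h⟩, fun h => hP h,
      fun h => hsideL h, fun i x y h => flip_bip x y h⟩
    have s1 := hsideL (hP h)
    have s2 := hsideL (hP2 h)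
    have a1 := hadjb (hP h)
    have a2 := hadjb (hP2 h)
    have a3 := hS.adj_iff h
    have a4 : (G i).Adj y x ↔ (G j).Adj y' x' := by
      rw [(G i).adj_comm, (G j).adj_comm]
      exact a3
    show (_ ∨ _) ↔ (_ ∨ _)
    rw [s1, s2, a1, a2, a3, a4]
  have hconv : IsConvex (flipG (G false) (A false) (b false)) (A false) := by
    refine ⟨L, fun x hx u w e he h1 h2 h3 h4 => ?_⟩
    have hx0 : x ∈ A0 := (hAf x).1 hx
    have hu := (flip_bip _ _ h1).1 hx
    have hw := (flip_bip _ _ h2).1 hx
    rw [flip_adj hx hu] at h1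
    rw [flip_adj hx hw] at h2
    rw [flip_adj hx he]
    exact @convex_of_circ (V false) (G false) A0 (b false) L hb0 hmin x (hcirc x hx0) u w e
      (fun h => hu ((hAf u).2 h)) (fun h => hw ((hAf w).2 h)) (fun h => he ((hAf e).2 h)) h1 h2
      h3 h4
  obtain ⟨φ, hφ⟩ := iso_of_stab (Nat.card (V false)) V _ A _ _ hSt le_rfl hconv ⟨w0, w0', hw0⟩
  have hlab : ∀ x, c true (b true) (φ x) = c false (b false) x := hφ
  have key : ∀ x y, x ∈ A false → y ∉ A false → ((G true).Adj (φ x) (φ y) ↔ (G false).Adj x y) := by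
    intro x y hx hy
    have hx' : φ x ∈ A true := (hsideL (hlab x)).2 hx
    have hy' : φ y ∉ A true := fun h => hy ((hsideL (hlab y)).1 h)
    have h1 := φ.map_adj_iff (v := x) (w := y)
    rw [flip_adj hx hy, flip_adj hx' hy', hadjb (hlab x)] at h1
    by_cases p : (G true).Adj (φ x) (φ y) <;> by_cases q : (G false).Adj x y <;>
      by_cases r : (G false).Adj x (b false) <;> simp [p, q, r] at h1 ⊢
  refine ⟨⟨φ.toEquiv, fun {x y} => ?_⟩⟩
  show (G true).Adj (φ x) (φ y) ↔ (G false).Adj x y
  by_cases hx : x ∈ A false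
  · by_cases hy : y ∈ A false
    · exact ⟨fun h => absurd ((hsideL (hlab y)).2 hy) ((hbipt _ _ h).1 ((hsideL (hlab x)).2 hx)),
        fun h => absurd hy ((hbipf _ _ h).1 hx)⟩
    · exact key x y hx hy
  · by_cases hy : y ∈ A false
    · rw [(G true).adj_comm, (G false).adj_comm]
      exact key y x hy hx
    · exact ⟨fun h => absurd ((hsideL (hlab x)).1
        ((hbipt _ _ h).2 fun h' => hy ((hsideL (hlab y)).1 h'))) hx,
        fun h => absurd ((hbipf _ _ h).2 hy) hx⟩

/-- **Circular convex bipartite graphs and stable colourings.** -/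
theorem iso_circ (hS : Stable V G c) (b : ∀ i, V i) (hP : Based c b)
    (A0 : Set (V false)) (hbip : ∀ x y, (G false).Adj x y → (x ∈ A0 ↔ y ∉ A0))
    (L : LinearOrder (V false)) (hcirc : ∀ x ∈ A0,
      (∀ b d e, e ∉ A0 → (G false).Adj x b → (G false).Adj x d → L.lt b e → L.lt e d →
        (G false).Adj x e) ∨
      (∀ b d e, b ∉ A0 → d ∉ A0 → e ∉ A0 → ¬ (G false).Adj x b → ¬ (G false).Adj x d →
        L.lt b e → L.lt e d → ¬ (G false).Adj x e))
    (hb0 : b false ∉ A0) (hmin : ∀ e, e ∉ A0 → L.le (b false) e)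
    (hlink : ∃ x x', c false x x = c true x' x') :
    Nonempty (G false ≃g G true) := by
  classical
  obtain ⟨E, hE, hinv⟩ := invariant_setoid hS (fun i => (G i).Adj)
    (fun e => (hS.adj_iff e).1) (fun i x y h => h.symm)
  refine uniform hS hinv hlink False ?_ ?_
  · intro i x y h
    exact ⟨fun h' => h ((hE i x y).2 (ReflTransGen.single h')), False.elim⟩
  · intro x x' hxx
    let p : ∀ i, V i := fun i => match i with
      | false => x
      | true => x'
    have hst : Stable (fun i => ↥({z | (E i).r (p i) z} : Set (V i)))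
        (fun i => (G i).induce {z | (E i).r (p i) z}) (fun i x y => c i x.1 y.1) := by
      refine hS.restrict (fun i => {z | (E i).r (p i) z}) ?_
      intro i j a d a' d' had ha ha'
      constructor
      · intro hd
        exact (E j).trans ha' ((hinv.iff had).1 ((E i).trans ((E i).symm ha) hd))
      · intro hd
        exact (E i).trans ha ((hinv.iff had).2 ((E j).trans ((E j).symm ha') hd))
    have hcn : ∀ i (a d : ({z | (E i).r (p i) z} : Set (V i))),
        ReflTransGen ((G i).induce {z | (E i).r (p i) z}).Adj a d := fun i a d =>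
      comp_conn _ (fun z => hE i (p i) z) a d
    have hbx : (E false).r (b false) x ↔ (E true).r (b true) x' := hinv.iff (hP hxx)
    by_cases hbc : (E false).r (b false) x
    · -- the component of the base point
      have hbm : ∀ i, b i ∈ ({z | (E i).r (p i) z} : Set (V i)) := by
        intro i
        match i with
        | false => exact (E false).symm hbc
        | true => exact (E true).symm (hbx.1 hbc)
      refine circ_conn hst (fun i => ⟨b i, hbm i⟩) (fun h => hP h) hcn {z | z.1 ∈ A0}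
        (fun a d had => hbip a.1 d.1 had)
        (@LinearOrder.lift' _ (V false) L Subtype.val Subtype.val_injective) ?_ hb0
        (fun e he => hmin e.1 he) ⟨⟨x, (E false).refl x⟩, ⟨x', (E true).refl x'⟩, hxx⟩
      intro a ha
      rcases hcirc a.1 ha with h | h
      · exact Or.inl fun b d e he h1 h2 h3 h4 => h b.1 d.1 e.1 he h1 h2 h3 h4
      · exact Or.inr fun b d e hb hd he h1 h2 h3 h4 => h b.1 d.1 e.1 hb hd he h1 h2 h3 h4
    · -- another component
      refine conn_case hst hcn {z | z.1 ∈ A0} (fun a d had => hbip a.1 d.1 had) ?_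
        ⟨⟨x, (E false).refl x⟩, ⟨x', (E true).refl x'⟩, hxx⟩
      refine ⟨@LinearOrder.lift' _ (V false) L Subtype.val Subtype.val_injective, ?_⟩
      intro a ha u w e he h1 h2 h3 h4
      have hab : ¬ (G false).Adj a.1 (b false) := by
        intro h
        apply hbc
        have h5 : (E false).r x a.1 := a.2
        have h6 : (E false).r a.1 (b false) := (hE false _ _).2 (ReflTransGen.single h)
        exact (E false).symm ((E false).trans h5 h6)
      have h1' : (G false).Adj a.1 u.1 := h1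
      have h2' : (G false).Adj a.1 w.1 := h2
      have hu : u.1 ∉ A0 := (hbip _ _ h1').1 ha
      have hw : w.1 ∉ A0 := (hbip _ _ h2').1 ha
      have h7 := @convex_of_circ (V false) (G false) A0 (b false) L hb0 hmin a.1 (hcirc a.1 ha)
        u.1 w.1 e.1 hu hw he (fun h => hab (h.1 h1')) (fun h => hab (h.1 h2')) h3 h4
      show (G false).Adj a.1 e.1
      by_contra hc
      exact h7 ⟨fun h => absurd h hc, fun h => absurd h hab⟩

end

section
open Pool.Agent.W185.SRG Pool.Agent.N624.NT

/-- the tuple `(b, x, y, …, y)` -/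
def tup3 {V : Type} (k : ℕ) (b x y : V) : Fin k → V :=
  fun i => if (i : ℕ) = 0 then b else if (i : ℕ) = 1 then x else y

/-- the stable colour of a pair, with a base point -/
noncomputable def pcol3 {V : Type} [Fintype V] (G : SimpleGraph V) (k : ℕ) (b x y : V) :
    (t : ℕ) → Col k t := fun t => wl G k t (tup3 k b x y)

variable {V W : Type} [Fintype V] [Fintype W] {G : SimpleGraph V} {H : SimpleGraph W} {k : ℕ}

theorem pcol3_eq {b x y : V} {b' x' y' : W} :
    pcol3 G k b x y = pcol3 H k b' x' y' ↔ Sm G H k (tup3 k b x y) (tup3 k b' x' y') := by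
  constructor
  · intro h t
    exact congrFun h t
  · intro h
    exact funext h

theorem update_one {X : Type} (hk : 3 ≤ k) (b x y z : X) :
    Function.update (tup3 k b x y) ⟨1, by omega⟩ z = tup3 k b z y := by
  funext i
  by_cases hi : i = ⟨1, by omega⟩
  · rw [hi, Function.update_self]
    simp [tup3]
  · rw [Function.update_of_ne hi]
    have h1 : (i : ℕ) ≠ 1 := fun h => hi (Fin.ext h)
    simp [tup3, h1]

theorem pair_step3 (hk : 3 ≤ k) {b x y : V} {b' x' y' : W}
    (h : pcol3 G k b x y = pcol3 H k b' x' y') :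
    ∃ β : V ≃ W, ∀ z, pcol3 G k b x z = pcol3 H k b' x' (β z) ∧
      pcol3 G k b z y = pcol3 H k b' (β z) y' := by
  classical
  rw [pcol3_eq] at h
  obtain ⟨β, hβ⟩ := h.step
  refine ⟨β, fun z => ⟨?_, ?_⟩⟩
  · rw [pcol3_eq]
    have h1 := Sm.copies (hβ z ⟨2, by omega⟩) ⟨2, by omega⟩
      (univ.filter fun i : Fin k => 3 ≤ (i : ℕ)) (by simp)
    have e : ∀ {X : Type} (b x y z : X), (fun i => if i ∈ (univ.filter fun i : Fin k => 3 ≤ (i : ℕ))
        then Function.update (tup3 k b x y) ⟨2, by omega⟩ z ⟨2, by omega⟩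
        else Function.update (tup3 k b x y) ⟨2, by omega⟩ z i) = tup3 k b x z := by
      intro X b x y z
      funext i
      rw [Function.update_self]
      have hm : (i ∈ univ.filter fun i : Fin k => 3 ≤ (i : ℕ)) ↔ 3 ≤ (i : ℕ) := by simp
      by_cases hi : 3 ≤ (i : ℕ)
      · rw [if_pos (hm.2 hi)]
        have h0 : (i : ℕ) ≠ 0 := by omega
        have h1 : (i : ℕ) ≠ 1 := by omega
        simp [tup3, h0, h1]
      · rw [if_neg fun h => hi (hm.1 h)]
        by_cases hi1 : i = ⟨2, by omega⟩
        · rw [hi1, Function.update_self]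
          simp [tup3]
        · rw [Function.update_of_ne hi1]
          have hne : (i : ℕ) ≠ 2 := fun h => hi1 (Fin.ext h)
          have : (i : ℕ) = 0 ∨ (i : ℕ) = 1 := by omega
          rcases this with h0 | h0 <;> simp [tup3, h0]
    rw [e b x y z, e b' x' y' (β z)] at h1
    exact h1
  · rw [pcol3_eq]
    have h1 := hβ z ⟨1, by omega⟩
    rw [update_one hk, update_one hk] at h1
    exact h1

theorem pcol3_base (hk : 3 ≤ k) {b x y : V} {b' x' y' : W}
    (h : pcol3 G k b x y = pcol3 H k b' x' y') : pcol3 G k b b x = pcol3 H k b' b' x' := by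
  classical
  rw [pcol3_eq] at h ⊢
  have h1 := Sm.copies h ⟨1, by omega⟩ (univ.filter fun i : Fin k => 2 ≤ (i : ℕ)) (by simp)
  have e : ∀ {X : Type} (b x y : X), (fun i => if i ∈ (univ.filter fun i : Fin k => 2 ≤ (i : ℕ))
      then tup3 k b x y ⟨1, by omega⟩ else tup3 k b x y i) = tup3 k b x x := by
    intro X b x y
    funext i
    have hm : (i ∈ univ.filter fun i : Fin k => 2 ≤ (i : ℕ)) ↔ 2 ≤ (i : ℕ) := by simp
    by_cases hi : 2 ≤ (i : ℕ)
    · rw [if_pos (hm.2 hi)]
      have h0 : (i : ℕ) ≠ 0 := by omega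
      have h1 : (i : ℕ) ≠ 1 := by omega
      simp [tup3, h0, h1]
    · rw [if_neg fun h => hi (hm.1 h)]
      have : (i : ℕ) = 0 ∨ (i : ℕ) = 1 := by omega
      rcases this with h0 | h0 <;> simp [tup3, h0]
  rw [e b x y, e b' x' y'] at h1
  have h2 := Sm.copy h1 ⟨1, by omega⟩ ⟨0, by omega⟩
  have e0 : ∀ {X : Type} (b x : X), tup3 k b x x ⟨0, by omega⟩ = b := by
    intro X b x
    simp [tup3]
  rw [e0, e0, update_one hk, update_one hk] at h2
  exact h2

theorem pcol3_eq_iff (hk : 3 ≤ k) {b x y : V} {b' x' y' : W}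
    (h : pcol3 G k b x y = pcol3 H k b' x' y') : x = y ↔ x' = y' := by
  rw [pcol3_eq] at h
  have h2 : isoType G k (tup3 k b x y) = isoType H k (tup3 k b' x' y') := h 0
  have h3 := congrFun (congrFun (congrArg Prod.fst h2) ⟨1, by omega⟩) ⟨2, by omega⟩
  have h4 : (tup3 k b x y ⟨1, by omega⟩ = tup3 k b x y ⟨2, by omega⟩) =
    (tup3 k b' x' y' ⟨1, by omega⟩ = tup3 k b' x' y' ⟨2, by omega⟩) := h3
  simpa [tup3] using h4

theorem pcol3_adj_iff (hk : 3 ≤ k) {b x y : V} {b' x' y' : W}
    (h : pcol3 G k b x y = pcol3 H k b' x' y') : G.Adj x y ↔ H.Adj x' y' := by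
  rw [pcol3_eq] at h
  have h2 : isoType G k (tup3 k b x y) = isoType H k (tup3 k b' x' y') := h 0
  have h3 := congrFun (congrFun (congrArg Prod.snd h2) ⟨1, by omega⟩) ⟨2, by omega⟩
  have h4 : G.Adj (tup3 k b x y ⟨1, by omega⟩) (tup3 k b x y ⟨2, by omega⟩) =
    H.Adj (tup3 k b' x' y' ⟨1, by omega⟩) (tup3 k b' x' y' ⟨2, by omega⟩) := h3
  simpa [tup3] using h4

/-- **Circular convex bipartite graphs are identified by the three-dimensional method.** -/
theorem main3 (hk : 3 ≤ k) (A : Set V) (hbip : ∀ x y, G.Adj x y → (x ∈ A ↔ y ∉ A))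
    (hG : IsCircConvex G A) : WLEquivalent k G H ↔ Nonempty (G ≃g H) := by
  classical
  constructor
  · intro h
    obtain ⟨L, hL⟩ := hG
    by_cases hB : ∃ b, b ∉ A
    · have hBne : ((univ : Finset V).filter fun b => b ∉ A).Nonempty := by
        obtain ⟨b, hb⟩ := hB
        exact ⟨b, by rw [mem_filter]; exact ⟨mem_univ _, hb⟩⟩
      obtain ⟨b0, hb1, hb2⟩ := @Finset.exists_min_image V V L _ (id : V → V) hBne
      rw [mem_filter] at hb1
      obtain ⟨b0', hb0'⟩ := linked h b0 (by omega)
      let b : ∀ i, fam V W i := fun i => match i with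
        | false => b0
        | true => b0'
      have hS : Stable (fam V W) (famG G H) (fun i => pcol3 (famG G H i) k (b i)) :=
        ⟨fun h => pcol3_eq_iff hk h, fun h => pcol3_adj_iff hk h, fun h => pair_step3 hk h⟩
      have e : ∀ {X : Type} (x : X), tup3 k x x x = tup k x x := by
        intro X x
        funext i
        simp [tup3, tup]
      have hlink : pcol3 G k b0 b0 b0 = pcol3 H k b0' b0' b0' := by
        rw [pcol3_eq, e, e]
        exact pcol_eq.1 hb0'
      refine iso_circ hS b (fun h => pcol3_base hk h) A hbip L hL hb1.2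
        (fun e he => hb2 e (by rw [mem_filter]; exact ⟨mem_univ _, he⟩)) ⟨b0, b0', hlink⟩
    · push Not at hB
      refine (main2 k (by omega) A hbip ⟨L, fun x _ b d e he => absurd (hB e) he⟩).1 h
  · rintro ⟨φ⟩
    exact wlEquivalent_of_iso φ k

end

end Pool.Agent.J4.H77.WL
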