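import Pool.Agent.J4.H77.WL.Main
import Pool.Agent.J4.H79.PG.Final

/-!
# Convex bipartite graphs and stable colourings
-/

set_option autoImplicit false
set_option linter.unusedSectionVars false

namespace Pool.Agent.J4.H77.WL

open Relation Finset Pool.Agent.J4.H79.PG

section
variable {V : Type} (G : SimpleGraph V)

/-- a common neighbour -/
def D2 (x y : V) : Prop := ∃ z, G.Adj x z ∧ G.Adj z y

/-- joined by a walk of even length -/
def Ev (x y : V) : Prop := ReflTransGen (D2 G) x y

variable {G}

theorem Ev.symm {x y : V} (h : Ev G x y) : Ev G y x := by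
  induction h with
  | refl => exact ReflTransGen.refl
  | tail _ h2 ih =>
    obtain ⟨z, h3, h4⟩ := h2
    exact ReflTransGen.head ⟨z, h4.symm, h3.symm⟩ ih

theorem Ev.trans {x y z : V} (h : Ev G x y) (h' : Ev G y z) : Ev G x z :=
  ReflTransGen.trans h h'

theorem ev_iff {A : Set V} (hbip : ∀ x y, G.Adj x y → (x ∈ A ↔ y ∉ A))
    (hconn : ∀ x y, ReflTransGen G.Adj x y) (x y : V) : Ev G x y ↔ (x ∈ A ↔ y ∈ A) := by
  constructor
  · intro h
    induction h with
    | refl => exact Iff.rfl
    | @tail b d _ h2 ih =>
      obtain ⟨z, h3, h4⟩ := h2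
      have e1 := hbip _ _ h3
      have e2 := hbip _ _ h4
      rw [ih, e1, e2, not_not]
  · have key : ((x ∈ A ↔ y ∈ A) → Ev G x y) ∧ (¬ (x ∈ A ↔ y ∈ A) → ∃ z, Ev G x z ∧ G.Adj z y) := by
      induction hconn x y with
      | refl => exact ⟨fun _ => ReflTransGen.refl, fun h => absurd Iff.rfl h⟩
      | @tail b d _ h2 ih =>
        have e := hbip _ _ h2
        constructor
        · intro h
          obtain ⟨z, h3, h4⟩ := ih.2 (by
            intro h5
            rw [h, e] at h5
            exact (iff_not_self h5).elim)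
          exact ReflTransGen.tail h3 ⟨b, h4, h2⟩
        · intro h
          refine ⟨b, ih.1 ?_, h2⟩
          by_contra h5
          apply h
          rw [e] at h5
          by_cases hx : x ∈ A <;> by_cases hd : d ∈ A
          · exact ⟨fun _ => hd, fun _ => hx⟩
          · exact absurd ⟨fun _ => hd, fun _ => hx⟩ h5
          · exact absurd ⟨fun h => absurd h hx, fun h => absurd hd h⟩ h5
          · exact ⟨fun h => absurd h hx, fun h => absurd h hd⟩
    exact key.1

end

section
variable {V : Bool → Type} [∀ i, Fintype (V i)] {G : ∀ i, SimpleGraph (V i)}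
  {K : Type} {c : ∀ i, V i → V i → K}

theorem d2_inv (hS : Stable V G c) {i j : Bool} {x y : V i} {x' y' : V j}
    (h : c i x y = c j x' y') (hd : D2 (G i) x y) : D2 (G j) x' y' := by
  obtain ⟨β, hβ⟩ := hS.step h
  obtain ⟨z, h1, h2⟩ := hd
  exact ⟨β z, (hS.adj_iff (hβ z).1).1 h1, (hS.adj_iff (hβ z).2).1 h2⟩

theorem ev_inv (hS : Stable V G c) {i j : Bool} {x y : V i} {x' y' : V j}
    (h : c i x y = c j x' y') : Ev (G i) x y ↔ Ev (G j) x' y' :=
  ⟨fun h' => hS.closure (fun i => D2 (G i)) (fun e => d2_inv hS e) h h',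
    fun h' => hS.closure (fun i => D2 (G i)) (fun e => d2_inv hS e) h.symm h'⟩

/-- The case of connected graphs. -/
theorem conn_case (hS : Stable V G c) (hconn : ∀ i x y, ReflTransGen (G i).Adj x y)
    (A0 : Set (V false)) (hbip : ∀ x y, (G false).Adj x y → (x ∈ A0 ↔ y ∉ A0))
    (hconv : IsConvex (G false) A0) (hlink : ∃ x x', c false x x = c true x' x') :
    Nonempty (G false ≃g G true) := by
  classical
  obtain ⟨w0, w0', hw0⟩ := hlink
  obtain ⟨β, hβ⟩ := hS.row hw0
  by_cases hA0 : ∃ x0, x0 ∈ A0
  · obtain ⟨x0, hx0⟩ := hA0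
    let b : ∀ i, V i := fun i => match i with
      | false => x0
      | true => β x0
    have hbb : c false x0 x0 = c true (β x0) (β x0) := hS.right (hβ x0)
    obtain ⟨δ, hδ⟩ := hS.row hbb
    let A : ∀ i, Set (V i) := fun i => {x | Ev (G i) (b i) x}
    have hAf : ∀ x, x ∈ A false ↔ x ∈ A0 := by
      intro x
      have h1 := ev_iff hbip (hconn false) x0 x
      constructor
      · intro h
        exact (h1.1 h).1 hx0
      · intro h
        exact h1.2 ⟨fun _ => h, fun _ => hx0⟩
    -- the sides
    have hside : ∀ i (x z : V i), Ev (G i) x z ↔ (x ∈ A i ↔ z ∈ A i) := by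
      intro i x z
      constructor
      · intro h
        exact ⟨fun h' => Ev.trans h' h, fun h' => Ev.trans h' h.symm⟩
      · intro h
        by_cases hx : x ∈ A i
        · exact Ev.trans (Ev.symm hx) (h.1 hx)
        · have hz : z ∉ A i := fun h' => hx (h.2 h')
          match i, x, z, h, hx, hz with
          | false, x, z, _, hx, hz =>
            rw [hAf] at hx hz
            exact (ev_iff hbip (hconn false) x z).2 ⟨fun h => absurd h hx, fun h => absurd h hz⟩
          | true, x, z, _, hx, hz =>
            obtain ⟨p, rfl⟩ := δ.surjective x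
            obtain ⟨γ, hγ⟩ := hS.step (hδ p)
            obtain ⟨w, rfl⟩ := γ.surjective z
            have h1 : ¬ Ev (G false) x0 p := fun h' => hx ((ev_inv hS (hδ p)).1 h')
            have h2 : ¬ Ev (G false) x0 w := fun h' => hz ((ev_inv hS (hγ w).1).1 h')
            have h3 : Ev (G false) w p := by
              rw [ev_iff hbip (hconn false)]
              rw [ev_iff hbip (hconn false)] at h1 h2
              constructor
              · intro h4
                exact absurd ⟨fun _ => h4, fun _ => hx0⟩ h2
              · intro h4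
                exact absurd ⟨fun _ => h4, fun _ => hx0⟩ h1
            exact ((ev_inv hS (hγ w).2).1 h3).symm
    have hbip' : ∀ i (x y : V i), (G i).Adj x y → (x ∈ A i ↔ y ∉ A i) := by
      intro i x y hxy
      have key : ¬ Ev (G i) x y := by
        match i, x, y, hxy with
        | false, x, y, hxy =>
          rw [ev_iff hbip (hconn false)]
          intro h
          have h1 := hbip x y hxy
          rw [h] at h1
          exact (iff_not_self h1).elim
        | true, x, y, hxy =>
          intro h
          obtain ⟨p, rfl⟩ := δ.surjective x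
          obtain ⟨γ, hγ⟩ := hS.row (hS.right (hδ p))
          obtain ⟨q, rfl⟩ := γ.surjective y
          have h1 := (ev_inv hS (hγ q)).2 h
          have h2 := (hS.adj_iff (hγ q)).2 hxy
          rw [ev_iff hbip (hconn false)] at h1
          have h3 := hbip p q h2
          rw [h1] at h3
          exact (iff_not_self h3).elim
      rw [hside] at key
      by_cases hx : x ∈ A i <;> by_cases hy : y ∈ A i
      · exact absurd ⟨fun _ => hy, fun _ => hx⟩ key
      · exact ⟨fun _ => hy, fun _ => hx⟩
      · exact ⟨fun h => absurd h hx, fun h => absurd hy h⟩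
      · exact absurd ⟨fun h => absurd h hx, fun h => absurd h hy⟩ key
    have hSt : Stab V G A (fun i x => (x ∈ A i : Prop))
        (fun i x y => ((c i x y, (x ∈ A i : Prop), (y ∈ A i : Prop)) : K × Prop × Prop)) := by
      refine ⟨⟨fun h => hS.eq_iff (congrArg Prod.fst h), fun h => hS.adj_iff (congrArg Prod.fst h),
        fun {i j x y x' y'} h => ?_⟩, fun h => congrArg (fun t => t.2.1) h,
        fun h => iff_of_eq h, hbip'⟩
      obtain ⟨γ, hγ⟩ := hS.step (congrArg Prod.fst h)
      have hx : (x ∈ A i) = (x' ∈ A j) := congrArg (fun t => t.2.1) h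
      have hy : (y ∈ A i) = (y' ∈ A j) := congrArg (fun t => t.2.2) h
      have hz : ∀ z, (z ∈ A i) = (γ z ∈ A j) := by
        intro z
        have h1 := ev_inv hS (hγ z).1
        rw [hside, hside, hx] at h1
        apply propext
        by_cases hx' : x' ∈ A j
        · exact ⟨fun h => (h1.1 ⟨fun _ => h, fun _ => hx'⟩).1 hx',
            fun h => (h1.2 ⟨fun _ => h, fun _ => hx'⟩).1 hx'⟩
        · constructor
          · intro h
            by_contra hc
            exact hx' ((h1.2 ⟨fun h => absurd h hx', fun h => absurd h hc⟩).2 h)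
          · intro h
            by_contra hc
            exact hx' ((h1.1 ⟨fun h => absurd h hx', fun h => absurd h hc⟩).2 h)
      exact ⟨γ, fun z => ⟨Prod.ext (hγ z).1 (Prod.ext hx (hz z)),
        Prod.ext (hγ z).2 (Prod.ext (hz z) hy)⟩⟩
    have hconv' : IsConvex (G false) (A false) := by
      obtain ⟨L, hL⟩ := hconv
      refine ⟨L, fun x hx b d e he => hL x ((hAf x).1 hx) b d e fun h => he ((hAf e).2 h)⟩
    have hl : ∃ x x', ((c false x x, (x ∈ A false : Prop), (x ∈ A false : Prop)) :
        K × Prop × Prop) = (c true x' x', (x' ∈ A true : Prop), (x' ∈ A true : Prop)) := by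
      refine ⟨x0, β x0, ?_⟩
      have e1 : (x0 ∈ A false) = True := eq_true ReflTransGen.refl
      have e2 : (β x0 ∈ A true) = True := eq_true ReflTransGen.refl
      rw [e1, e2, hbb]
    obtain ⟨φ, -⟩ := iso_of_stab (Nat.card (V false)) V G A _ _ hSt le_rfl hconv' hl
    exact ⟨φ⟩
  · -- no edges
    push Not at hA0
    have hno : ∀ x y, ¬ (G false).Adj x y := by
      intro x y hxy
      exact hA0 x ((hbip x y hxy).2 (hA0 y))
    have hsub : Subsingleton (V false) := by
      refine ⟨fun x y => ?_⟩
      rcases (hconn false x y).cases_head with h | ⟨z, h, -⟩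
      · exact h
      · exact absurd h (hno x z)
    have : Subsingleton (V true) := β.symm.injective.subsingleton
    exact ⟨⟨β, fun {a b} => ⟨fun h => absurd (Subsingleton.elim _ _) h.ne,
      fun h => absurd (Subsingleton.elim _ _) h.ne⟩⟩⟩

/-- the component of a vertex is connected -/
theorem comp_conn {V : Type} {G : SimpleGraph V} {x : V} (S : Set V)
    (hS : ∀ z, z ∈ S ↔ ReflTransGen G.Adj x z) (p q : S) : ReflTransGen (G.induce S).Adj p q := by
  have key : ∀ z, ReflTransGen G.Adj x z → ∀ (hx : x ∈ S) (hz : z ∈ S),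
      ReflTransGen (G.induce S).Adj ⟨x, hx⟩ ⟨z, hz⟩ := by
    intro z h
    induction h with
    | refl => intro _ _; exact ReflTransGen.refl
    | @tail b d h1 h2 ih =>
      intro hx hd
      exact ReflTransGen.tail (ih hx ((hS b).2 h1)) h2
  have hx : x ∈ S := (hS x).2 ReflTransGen.refl
  have hsymm : ∀ a b : S, ReflTransGen (G.induce S).Adj a b → ReflTransGen (G.induce S).Adj b a := by
    intro a b h
    induction h with
    | refl => exact ReflTransGen.refl
    | tail _ h2 ih => exact ReflTransGen.head h2.symm ih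
  exact (hsymm _ _ (key p.1 ((hS p.1).1 p.2) hx p.2)).trans (key q.1 ((hS q.1).1 q.2) hx q.2)

/-- **Convex bipartite graphs and stable colourings.** -/
theorem iso_convex (hS : Stable V G c) (A0 : Set (V false))
    (hbip : ∀ x y, (G false).Adj x y → (x ∈ A0 ↔ y ∉ A0))
    (hconv : IsConvex (G false) A0) (hlink : ∃ x x', c false x x = c true x' x') :
    Nonempty (G false ≃g G true) := by
  classical
  obtain ⟨E, hE, hinv⟩ := invariant_setoid hS (fun i => (G i).Adj)
    (fun e => (hS.adj_iff e).1) (fun i x y h => h.symm)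
  refine uniform hS hinv hlink False ?_ ?_
  · intro i x y h
    exact ⟨fun h' => h ((hE i x y).2 (ReflTransGen.single h')), False.elim⟩
  · intro x x' hxx
    let p : ∀ i, V i := fun i => match i with
      | false => x
      | true => x'
    have hst : Stable (fun i => ↥({z | (E i).r (p i) z} : Set (V i)))
        (fun i => (G i).induce {z | (E i).r (p i) z}) (fun i x y => c i x.1 y.1) := by
      refine hS.restrict (fun i => {z | (E i).r (p i) z}) ?_
      intro i j a d a' d' had ha ha'
      constructor
      · intro hd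
        exact (E j).trans ha' ((hinv.iff had).1 ((E i).trans ((E i).symm ha) hd))
      · intro hd
        exact (E i).trans ha ((hinv.iff had).2 ((E j).trans ((E j).symm ha') hd))
    refine conn_case hst ?_ {z | z.1 ∈ A0} (fun a b hab => hbip a.1 b.1 hab)
      (hconv.induce _) ⟨⟨x, (E false).refl x⟩, ⟨x', (E true).refl x'⟩, hxx⟩
    intro i a b
    exact comp_conn _ (fun z => hE i (p i) z) a b

end

section
open Pool.Agent.W185.SRG Pool.Agent.N624.NT

/-- **Convex bipartite graphs are identified by the two-dimensional method.** -/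
theorem main2 {V W : Type} [Fintype V] [Fintype W] {G : SimpleGraph V} {H : SimpleGraph W}
    (k : ℕ) (hk : 2 ≤ k) (A : Set V) (hbip : ∀ x y, G.Adj x y → (x ∈ A ↔ y ∉ A))
    (hG : IsConvex G A) : WLEquivalent k G H ↔ Nonempty (G ≃g H) := by
  constructor
  · intro h
    rcases isEmpty_or_nonempty V with hV | ⟨⟨x⟩⟩
    · obtain ⟨ψ, -⟩ := h
      have hW : IsEmpty W := by
        refine ⟨fun w => ?_⟩
        exact hV.false ((ψ.symm fun _ => w) ⟨0, by omega⟩)
      exact ⟨⟨Equiv.equivOfIsEmpty V W, fun {a} => (hV.false a).elim⟩⟩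
    · have hS := stable_wl G H hk
      obtain ⟨x', hx'⟩ := linked h x hk
      exact iso_convex hS A hbip hG ⟨x, x', hx'⟩
  · rintro ⟨φ⟩
    exact wlEquivalent_of_iso φ k

end

end Pool.Agent.J4.H77.WL
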