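import Mathlib

/-!
# Modules of relational structures with one type for each ordered pair

`R x y` is the type of the pair `(x, y)`, and the type of `(y, x)` is a function of it.
-/

set_option autoImplicit false
set_option linter.unusedSectionVars false

namespace Pool.Agent.J4.H77.WL

open Relation

section
variable {V T : Type} (R : V → V → T)

/-- a module: every outside vertex has the same type with all of its vertices -/
def IsMod (M : Set V) : Prop := ∀ x ∈ M, ∀ y ∈ M, ∀ z, z ∉ M → R z x = R z y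

/-- `x` and `y` lie in a common proper module -/
def Mod (x y : V) : Prop := ∃ M : Set V, IsMod R M ∧ M ≠ Set.univ ∧ x ∈ M ∧ y ∈ M

/-- no set has one constant type with its complement -/
def ND : Prop := ∀ (M : Set V) (t : T), M.Nonempty → M ≠ Set.univ →
  ∃ m ∈ M, ∃ y, y ∉ M ∧ R y m ≠ t

variable {R}

theorem IsMod.union {M N : Set V} (hM : IsMod R M) (hN : IsMod R N) {x : V}
    (hxM : x ∈ M) (hxN : x ∈ N) : IsMod R (M ∪ N) := by
  intro y hy z hz w hw
  rw [Set.mem_union, not_or] at hw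
  have key : ∀ y ∈ M ∪ N, R w y = R w x := by
    rintro y (hy | hy)
    · exact hM y hy x hxM w hw.1
    · exact hN y hy x hxN w hw.2
  rw [key y hy, key z hz]

theorem union_ne_univ {rev : T → T} (hrev : ∀ x y, R y x = rev (R x y)) (hnd : ND R)
    {M N : Set V} (hM : IsMod R M) (hN : IsMod R N) (hM' : M ≠ Set.univ)
    (hN' : N ≠ Set.univ) {x : V} (hxM : x ∈ M) (_hxN : x ∈ N) : M ∪ N ≠ Set.univ := by
  intro hu
  obtain ⟨a, ha⟩ := (Set.ne_univ_iff_exists_notMem N).1 hN'
  obtain ⟨b, hb⟩ := (Set.ne_univ_iff_exists_notMem M).1 hM'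
  have haM : a ∈ M := (show a ∈ M ∪ N by rw [hu]; trivial).resolve_right ha
  obtain ⟨m, hm, y, hy, hne⟩ := hnd M (R b a) ⟨x, hxM⟩ hM'
  apply hne
  have hyN : y ∈ N := (show y ∈ M ∪ N by rw [hu]; trivial).resolve_left hy
  have hbN : b ∈ N := (show b ∈ M ∪ N by rw [hu]; trivial).resolve_left hb
  rw [hM m hm a haM y hy, hrev a y, hrev a b]
  exact congrArg rev (hN y hyN b hbN a ha)

theorem Mod.symm {x y : V} (h : Mod R x y) : Mod R y x := by
  obtain ⟨M, h1, h2, h3, h4⟩ := h
  exact ⟨M, h1, h2, h4, h3⟩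

theorem mod_refl [Nontrivial V] (x : V) : Mod R x x := by
  obtain ⟨y, hy⟩ := exists_ne x
  refine ⟨{x}, ?_, ?_, rfl, rfl⟩
  · rintro a rfl b rfl z _
    rfl
  · intro h
    exact hy (by
      have : y ∈ ({x} : Set V) := by rw [h]; trivial
      exact this)

theorem Mod.trans {rev : T → T} (hrev : ∀ x y, R y x = rev (R x y)) (hnd : ND R)
    {x y z : V} (h : Mod R x y) (h' : Mod R y z) : Mod R x z := by
  obtain ⟨M, a1, a2, a3, a4⟩ := h
  obtain ⟨N, b1, b2, b3, b4⟩ := h'
  exact ⟨M ∪ N, a1.union b1 a4 b3, union_ne_univ hrev hnd a1 b1 a2 b2 a4 b3, Or.inl a3, Or.inr b4⟩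

/-- a vertex outside the class of `x` does not distinguish `x` and the elements of the class -/
theorem Mod.type_eq {x y z : V} (h : Mod R x y) (hz : ¬ Mod R x z) : R z x = R z y := by
  obtain ⟨M, a1, a2, a3, a4⟩ := h
  exact a1 x a3 y a4 z fun hzM => hz ⟨M, a1, a2, a3, hzM⟩

/-- the class of `x` is proper -/
theorem exists_not_mod [Finite V] {rev : T → T} (hrev : ∀ x y, R y x = rev (R x y)) (hnd : ND R)
    [Nontrivial V] (x : V) : ∃ y, ¬ Mod R x y := by
  by_contra hc
  push Not at hc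
  have hfin : {M : Set V | IsMod R M ∧ M ≠ Set.univ ∧ x ∈ M}.Finite := Set.toFinite _
  have hne : {M : Set V | IsMod R M ∧ M ≠ Set.univ ∧ x ∈ M}.Nonempty := by
    obtain ⟨M, a1, a2, a3, -⟩ := mod_refl (R := R) x
    exact ⟨M, a1, a2, a3⟩
  obtain ⟨M, hM⟩ := hfin.exists_maximal hne
  obtain ⟨⟨a1, a2, a3⟩, hmax⟩ := hM
  obtain ⟨y, hy⟩ := (Set.ne_univ_iff_exists_notMem M).1 a2
  obtain ⟨N, b1, b2, b3, b4⟩ := hc y
  have h3 : M ∪ N ∈ {M : Set V | IsMod R M ∧ M ≠ Set.univ ∧ x ∈ M} :=
    ⟨a1.union b1 a3 b3, union_ne_univ hrev hnd a1 b1 a2 b2 a3 b3, Or.inl a3⟩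
  exact hy (hmax h3 Set.subset_union_left (Or.inr b4))

variable (R) in
/-- the arcs of the graph of forcing at `x`: from `y` to every vertex `z` which distinguishes `x`
and `y` -/
def Arc (x y z : V) : Prop := z ≠ x ∧ z ≠ y ∧ R z x ≠ R z y

/-- A vertex that lies in no common proper module with `x` reaches everything. -/
theorem reach {x y : V} (h : ¬ Mod R x y) (z : V) (hz : z ≠ x) : ReflTransGen (Arc R x) y z := by
  by_contra hc
  apply h
  refine ⟨{w | w = x ∨ ReflTransGen (Arc R x) y w}, ?_, ?_, Or.inl rfl, Or.inr ReflTransGen.refl⟩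
  · have key : ∀ a ∈ {w | w = x ∨ ReflTransGen (Arc R x) y w},
        ∀ w, w ∉ {w | w = x ∨ ReflTransGen (Arc R x) y w} → R w a = R w x := by
      intro a ha w hw
      rw [Set.mem_ofPred_eq, not_or] at hw
      rcases ha with rfl | ha
      · rfl
      · by_contra hcon
        apply hw.2
        refine ha.tail ⟨hw.1, ?_, fun h' => hcon h'.symm⟩
        rintro rfl
        exact hw.2 ha
    intro a ha b hb w hw
    rw [key a ha w hw, key b hb w hw]
  · intro hu
    have : z ∈ {w | w = x ∨ ReflTransGen (Arc R x) y w} := by rw [hu]; trivial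
    exact this.elim hz hc

/-- No arc leads out of the class of `x`. -/
theorem Arc.mod {x y z : V} (h : Arc R x y z) (hz : ¬ Mod R x z) : ¬ Mod R x y := by
  intro hy
  exact h.2.2 (hy.type_eq hz)

/-- There is a vertex outside the class of `x` with another type. -/
theorem exists_dist [Finite V] {rev : T → T} (hrev : ∀ x y, R y x = rev (R x y)) (hnd : ND R)
    [Nontrivial V] (x : V) (t : T) : ∃ u, ¬ Mod R x u ∧ R x u ≠ t := by
  by_contra hc
  push Not at hc
  have key : ∀ m, Mod R x m → ∀ u, ¬ Mod R x u → R m u = t := by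
    intro m hm u hu
    rw [hrev u m, ← hm.type_eq hu, ← hrev u x]
    exact hc u hu
  obtain ⟨b, hb⟩ := exists_not_mod hrev hnd x
  obtain ⟨m, hm, y, hy, hne⟩ := hnd {u | ¬ Mod R x u} t ⟨b, hb⟩ (by
    intro h
    have : x ∈ {u | ¬ Mod R x u} := by rw [h]; trivial
    exact this (mod_refl x))
  apply hne
  have hy' : Mod R x y := by
    by_contra h
    exact hy h
  exact key y hy' m hm

end

end Pool.Agent.J4.H77.WL
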